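import Pool.Agent.Helper449_SCT.Gen

/-!
# André's theory is a supercharacter theory: orbit sums
-/

set_option linter.style.haveILetI false
set_option linter.unusedSectionVars false

open scoped BigOperators Classical
open Pool.Agent.Helper884

noncomputable section

namespace Pool.Agent.Helper449_SCT

variable {n : ℕ} {F : Type} [Field F] [Finite F]

instance instFinMat : Finite (Matrix (Fin n) (Fin n) F) :=
  inferInstanceAs (Finite (Fin n → Fin n → F))

instance instFinUT : Fintype (UT n F) := Fintype.ofFinite _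

instance instFinNn : Fintype (nn n F) := Fintype.ofFinite _

instance instFiniteDual : Finite (Module.Dual F (nn n F)) := Module.finite_of_finite F

instance instFinDual : Fintype (Module.Dual F (nn n F)) := Fintype.ofFinite _

lemma mat_inj {g h : UT n F} (hgh : mat g = mat h) : g = h :=
  Subtype.ext (Units.ext hgh)

lemma mat_mul_inv (g : UT n F) : mat g * mat g⁻¹ = 1 := by
  rw [← mat_mul, mul_inv_cancel, mat_one]

lemma mat_inv_mul (g : UT n F) : mat g⁻¹ * mat g = 1 := by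
  rw [← mat_mul, inv_mul_cancel, mat_one]

lemma coe_tr (u v : UT n F) (y : nn n F) :
    (tr u v y : Matrix (Fin n) (Fin n) F) = mat u * y * mat v := rfl

lemma coe_lg (g : UT n F) : (lg g : Matrix (Fin n) (Fin n) F) = mat g - 1 := rfl

lemma tr_tr (u v u' v' : UT n F) (y : nn n F) : tr u v (tr u' v' y) = tr (u * u') (v' * v) y := by
  apply Subtype.ext
  simp only [coe_tr, mat_mul, mul_assoc]

lemma tr_one (y : nn n F) : tr (1 : UT n F) 1 y = y := by
  apply Subtype.ext
  simp only [coe_tr, mat_one, one_mul, mul_one]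

lemma lg_one : lg (1 : UT n F) = 0 := by
  apply Subtype.ext
  rw [coe_lg, mat_one, sub_self]
  rfl

lemma lg_injective : Function.Injective (lg : UT n F → nn n F) := by
  intro g h hgh
  apply mat_inj
  have h1 := congrArg (fun y : nn n F => (y : Matrix (Fin n) (Fin n) F)) hgh
  simp only [coe_lg] at h1
  exact sub_left_injective h1

lemma isUnit_one_add (y : nn n F) : IsUnit (1 + (y : Matrix (Fin n) (Fin n) F)) := by
  rw [Matrix.isUnit_iff_isUnit_det]
  have h : (1 + (y : Matrix (Fin n) (Fin n) F)).det = 1 := by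
    rw [Matrix.det_of_isUpperTriangular]
    · refine Finset.prod_eq_one fun i _ => ?_
      rw [Matrix.add_apply, Matrix.one_apply_eq, y.2 i i le_rfl, add_zero]
    · intro i j hij
      have hij' : j < i := hij
      rw [Matrix.add_apply, Matrix.one_apply_ne hij'.ne', y.2 i j hij'.le, add_zero]
  rw [h]
  exact isUnit_one

/-- the element `1 + y` of `U_n(F)` -/
def ex (y : nn n F) : UT n F := ⟨(isUnit_one_add y).unit, by
  change ((isUnit_one_add y).unit : Matrix (Fin n) (Fin n) F) - 1 ∈ nn n F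
  rw [IsUnit.unit_spec, add_sub_cancel_left]
  exact y.2⟩

lemma mat_ex (y : nn n F) : mat (ex y) = 1 + (y : Matrix (Fin n) (Fin n) F) := by
  change ((isUnit_one_add y).unit : Matrix (Fin n) (Fin n) F) = _
  rw [IsUnit.unit_spec]

lemma lg_ex (y : nn n F) : lg (ex y) = y := by
  apply Subtype.ext
  rw [coe_lg, mat_ex, add_sub_cancel_left]

/-- the bijection `g ↦ g - 1` -/
def lgE : UT n F ≃ nn n F := Equiv.ofBijective lg ⟨lg_injective, fun y => ⟨ex y, lg_ex y⟩⟩

lemma lgE_apply (g : UT n F) : lgE g = lg g := rfl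

lemma lg_conj (h g : UT n F) : lg (h * g * h⁻¹) = tr h h⁻¹ (lg g) := by
  apply Subtype.ext
  rw [coe_lg, coe_tr, coe_lg, mat_mul, mat_mul, mul_sub, sub_mul, mul_one, mat_mul_inv]

lemma lg_inv_mul (x g : UT n F) : lg (x⁻¹ * g) = tr x⁻¹ 1 (lg g - lg x) := by
  apply Subtype.ext
  rw [coe_lg, coe_tr, Submodule.coe_sub, coe_lg, coe_lg, mat_mul, mat_one, mul_one,
    sub_sub_sub_cancel_right, mul_sub, mat_inv_mul]

lemma act_apply (u v : UT n F) (μ : Module.Dual F (nn n F)) (y : nn n F) :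
    act u v μ y = μ (tr u v y) := rfl

lemma act_act (u v u' v' : UT n F) (μ : Module.Dual F (nn n F)) :
    act u v (act u' v' μ) = act (u' * u) (v * v') μ := by
  ext y : 1
  simp only [act_apply, tr_tr]

lemma act_one (μ : Module.Dual F (nn n F)) : act (1 : UT n F) 1 μ = μ := by
  ext y : 1
  simp only [act_apply, tr_one]

lemma act_inv_act (u v : UT n F) (μ : Module.Dual F (nn n F)) :
    act u⁻¹ v⁻¹ (act u v μ) = μ := by
  rw [act_act, mul_inv_cancel, inv_mul_cancel, act_one]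

lemma act_act_inv (u v : UT n F) (μ : Module.Dual F (nn n F)) :
    act u v (act u⁻¹ v⁻¹ μ) = μ := by
  rw [act_act, inv_mul_cancel, mul_inv_cancel, act_one]

lemma mem_orb_self (μ : Module.Dual F (nn n F)) : μ ∈ orb μ := ⟨1, 1, (act_one μ).symm⟩

lemma act_mem_orb (u v : UT n F) {μ ν : Module.Dual F (nn n F)} (h : ν ∈ orb μ) :
    act u v ν ∈ orb μ := by
  obtain ⟨a, b, rfl⟩ := h
  exact ⟨a * u, v * b, act_act _ _ _ _ _⟩

lemma orb_eq {μ ν : Module.Dual F (nn n F)} (h : ν ∈ orb μ) : orb ν = orb μ := by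
  obtain ⟨a, b, rfl⟩ := h
  ext κ
  constructor
  · rintro ⟨u, v, rfl⟩
    exact act_mem_orb u v (act_mem_orb a b (mem_orb_self μ))
  · intro hκ
    obtain ⟨u, v, rfl⟩ := hκ
    refine ⟨a⁻¹ * u, v * b⁻¹, ?_⟩
    rw [act_act]
    congr 1
    · group
    · group

lemma orb_eq_iff {μ ν : Module.Dual F (nn n F)} : orb μ = orb ν ↔ μ ∈ orb ν :=
  ⟨fun h => h ▸ mem_orb_self μ, orb_eq⟩

lemma act_neg (u v : UT n F) (μ : Module.Dual F (nn n F)) : act u v (-μ) = -act u v μ := rfl

lemma mem_orb_neg {μ ν : Module.Dual F (nn n F)} : ν ∈ orb (-μ) ↔ -ν ∈ orb μ := by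
  constructor
  · rintro ⟨u, v, rfl⟩
    exact ⟨u, v, by rw [act_neg, neg_neg]⟩
  · rintro ⟨u, v, h⟩
    exact ⟨u, v, by rw [act_neg, ← h, neg_neg]⟩

/-- the orbit as a finite set -/
def orbF (μ : Module.Dual F (nn n F)) : Finset (Module.Dual F (nn n F)) :=
  Finset.univ.filter (· ∈ orb μ)

lemma mem_orbF {μ ν : Module.Dual F (nn n F)} : ν ∈ orbF μ ↔ ν ∈ orb μ := by
  simp [orbF]

/-- the orbit sum as a function on strictly upper triangular matrices -/
def eta (θ : AddChar F ℂ) (μ : Module.Dual F (nn n F)) (y : nn n F) : ℂ :=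
  ∑ ν ∈ orbF μ, θ (ν y)

lemma xi_eq (θ : AddChar F ℂ) (μ : Module.Dual F (nn n F)) (g : UT n F) :
    xi θ μ g = eta θ μ (lg g) := by
  unfold xi eta
  apply finsum_mem_eq_sum_of_inter_support_eq
  ext ν
  simp only [orbF, Set.mem_inter_iff, Finset.coe_filter, Finset.mem_univ, true_and,
    Set.mem_ofPred_eq]

lemma eta_tr (θ : AddChar F ℂ) (μ : Module.Dual F (nn n F)) (u v : UT n F) (y : nn n F) :
    eta θ μ (tr u v y) = eta θ μ y := by
  unfold eta
  refine Finset.sum_bij' (fun ν _ => act u v ν) (fun ν _ => act u⁻¹ v⁻¹ ν) ?_ ?_ ?_ ?_ ?_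
  · intro ν hν
    exact mem_orbF.mpr (act_mem_orb u v (mem_orbF.mp hν))
  · intro ν hν
    exact mem_orbF.mpr (act_mem_orb _ _ (mem_orbF.mp hν))
  · intro ν _
    exact act_inv_act u v ν
  · intro ν _
    exact act_act_inv u v ν
  · intro ν _
    rfl

lemma eta_neg (θ : AddChar F ℂ) (μ : Module.Dual F (nn n F)) (y : nn n F) :
    eta θ (-μ) y = eta θ μ (-y) := by
  unfold eta
  refine Finset.sum_bij' (fun ν _ => -ν) (fun ν _ => -ν) ?_ ?_ ?_ ?_ ?_
  · intro ν hν
    exact mem_orbF.mpr (mem_orb_neg.mp (mem_orbF.mp hν))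
  · intro ν hν
    rw [mem_orbF, mem_orb_neg, neg_neg]
    exact mem_orbF.mp hν
  · intro ν _
    exact neg_neg ν
  · intro ν _
    exact neg_neg ν
  · intro ν _
    simp

lemma xi_class (θ : AddChar F ℂ) (μ : Module.Dual F (nn n F)) (g h : UT n F) :
    xi θ μ (h * g * h⁻¹) = xi θ μ g := by
  rw [xi_eq, xi_eq, lg_conj, eta_tr]

lemma xi_inv (θ : AddChar F ℂ) (μ : Module.Dual F (nn n F)) (g : UT n F) :
    xi θ μ g⁻¹ = xi θ (-μ) g := by
  have h : lg g⁻¹ = tr g⁻¹ 1 (-lg g) := by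
    have := lg_inv_mul g 1
    rwa [mul_one, lg_one, zero_sub] at this
  rw [xi_eq, xi_eq, h, eta_tr, eta_neg]

lemma sum_theta (θ : AddChar F ℂ) (hθ : θ ≠ 1) (μ : Module.Dual F (nn n F)) :
    ∑ g : UT n F, θ (μ (lg g)) = if μ = 0 then (Nat.card (UT n F) : ℂ) else 0 := by
  rw [Fintype.sum_equiv lgE (fun g => θ (μ (lg g))) (fun y => θ (μ y)) (fun g => rfl)]
  have h1 := AddChar.sum_eq_ite (θ.compAddMonoidHom (μ : nn n F →+ F))
  have h2 : θ.compAddMonoidHom (μ : nn n F →+ F) = 0 ↔ μ = 0 := by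
    constructor
    · intro h
      by_contra hμ
      obtain ⟨y, hy⟩ : ∃ y, μ y ≠ 0 := by
        by_contra hcon
        push Not at hcon
        exact hμ (LinearMap.ext hcon)
      apply hθ
      ext t
      have h3 := DFunLike.congr_fun h ((t / μ y) • y)
      simp only [AddChar.compAddMonoidHom_apply, AddMonoidHom.coe_coe, map_smul, smul_eq_mul,
        AddChar.zero_apply] at h3
      rw [div_mul_cancel₀ _ hy] at h3
      rw [h3]
      rfl
    · rintro rfl
      ext y
      simp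
  simp only [AddChar.compAddMonoidHom_apply, AddMonoidHom.coe_coe] at h1
  rw [h1]
  simp only [h2]
  congr 1
  rw [Nat.card_congr (lgE (n := n) (F := F)), Nat.card_eq_fintype_card]

lemma xi_conv (θ : AddChar F ℂ) (hθ : θ ≠ 1) (μ μ' : Module.Dual F (nn n F)) (g : UT n F) :
    H254R3.IN.conv (xi θ μ) (xi θ μ') g =
      if orb μ = orb μ' then (Nat.card (UT n F) : ℂ) * xi θ μ g else 0 := by
  unfold H254R3.IN.conv
  have h1 : ∀ x : UT n F, xi θ μ x * xi θ μ' (x⁻¹ * g) =
      ∑ ν ∈ orbF μ, ∑ ν' ∈ orbF μ', θ (ν' (lg g)) * θ ((ν - ν') (lg x)) := by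
    intro x
    rw [xi_eq, xi_eq, lg_inv_mul, eta_tr]
    unfold eta
    rw [Finset.sum_mul_sum]
    refine Finset.sum_congr rfl fun ν _ => Finset.sum_congr rfl fun ν' _ => ?_
    rw [← AddChar.map_add_eq_mul, ← AddChar.map_add_eq_mul]
    congr 1
    simp only [map_sub, LinearMap.sub_apply]
    ring
  simp only [h1]
  rw [Finset.sum_comm]
  have h2 : ∀ ν ∈ orbF μ, ∑ x : UT n F, ∑ ν' ∈ orbF μ', θ (ν' (lg g)) * θ ((ν - ν') (lg x)) =
      if orb μ = orb μ' then (Nat.card (UT n F) : ℂ) * θ (ν (lg g)) else 0 := by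
    intro ν hν
    rw [Finset.sum_comm]
    have h3 : ∀ ν' ∈ orbF μ', ∑ x : UT n F, θ (ν' (lg g)) * θ ((ν - ν') (lg x)) =
        if ν = ν' then (Nat.card (UT n F) : ℂ) * θ (ν (lg g)) else 0 := by
      intro ν' _
      rw [← Finset.mul_sum, sum_theta θ hθ]
      by_cases h : ν = ν'
      · rw [if_pos h, if_pos (sub_eq_zero.mpr h), h, mul_comm]
      · rw [if_neg h, if_neg (fun h' => h (sub_eq_zero.mp h')), mul_zero]
    rw [Finset.sum_congr rfl h3, Finset.sum_ite_eq]
    refine if_congr ?_ rfl rfl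
    rw [mem_orbF] at hν ⊢
    constructor
    · intro h
      rw [← orb_eq hν, ← orb_eq h]
    · intro h
      rw [← h]
      exact hν
  rw [Finset.sum_congr rfl h2]
  split_ifs with h
  · rw [xi_eq, eta, Finset.mul_sum]
  · rw [Finset.sum_const_zero]

end Pool.Agent.Helper449_SCT
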