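import Pool.Agent.Helper449_SCT.And1

/-!
# André's theory is a supercharacter theory: character blocks
-/

set_option linter.style.haveILetI false
set_option linter.unusedSectionVars false

open scoped BigOperators Classical
open Pool.Agent.Helper884

noncomputable section

namespace Pool.Agent.Helper449_SCT

variable {n : ℕ} {F : Type} [Field F] [Finite F]

lemma cardU_ne : (Nat.card (UT n F) : ℂ) ≠ 0 := by
  exact_mod_cast Nat.card_pos.ne'

lemma xi_isCl (θ : AddChar F ℂ) (μ : Module.Dual F (nn n F)) : H254R3.IN.IsCl (xi θ μ) :=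
  fun g y => xi_class θ μ g y

/-- the scalar by which the conjugate of the orbit sum acts -/
def wt (θ : AddChar F ℂ) (μ : Module.Dual F (nn n F)) (χ : UT n F → ℂ) : ℂ :=
  H254R3.IN.Om (xi θ (-μ)) χ

lemma orb_neg_iff {μ μ' : Module.Dual F (nn n F)} : orb (-μ) = orb (-μ') ↔ orb μ = orb μ' := by
  rw [orb_eq_iff, orb_eq_iff, mem_orb_neg, neg_neg]

lemma wt_mul (θ : AddChar F ℂ) (hθ : θ ≠ 1) (μ μ' : Module.Dual F (nn n F)) {χ : UT n F → ℂ}
    (hχ : IsIrr χ) : wt θ μ χ * wt θ μ' χ =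
      if orb μ = orb μ' then (Nat.card (UT n F) : ℂ) * wt θ μ χ else 0 := by
  unfold wt
  rw [← H254R3.IN.Om_conv hχ (xi_isCl θ _) (xi_isCl θ _)]
  have h : H254R3.IN.conv (xi θ (-μ)) (xi θ (-μ')) = fun g =>
      (if orb μ = orb μ' then (Nat.card (UT n F) : ℂ) else 0) * xi θ (-μ) g := by
    funext g
    rw [xi_conv θ hθ]
    by_cases h : orb μ = orb μ'
    · rw [if_pos h, if_pos (orb_neg_iff.mpr h)]
    · rw [if_neg h, if_neg (fun h' => h (orb_neg_iff.mp h')), zero_mul]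
  rw [h, H254R3.IN.Om_smul]
  split_ifs
  · rfl
  · rw [zero_mul]

lemma B_xi (θ : AddChar F ℂ) (μ : Module.Dual F (nn n F)) {χ : UT n F → ℂ} (hχ : IsIrr χ) :
    IC.B (xi θ μ) χ = (Nat.card (UT n F) : ℂ)⁻¹ * (χ 1 * wt θ μ χ) := by
  unfold IC.B wt H254R3.IN.Om
  rw [mul_div_cancel₀ _ (irr_one_ne hχ)]
  congr 1
  refine Fintype.sum_equiv (Equiv.inv _) _ _ fun g => ?_
  simp only [Equiv.inv_apply]
  rw [← xi_inv, inv_inv]

lemma mem_blk (θ : AddChar F ℂ) (μ : Module.Dual F (nn n F)) {χ : UT n F → ℂ} :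
    χ ∈ blk θ μ ↔ IsIrr χ ∧ wt θ μ χ ≠ 0 := by
  have h0 : ∑ᶠ g : UT n F, xi θ μ g * χ g⁻¹ = (Nat.card (UT n F) : ℂ) * IC.B (xi θ μ) χ := by
    rw [finsum_eq_sum_of_fintype]
    unfold IC.B
    rw [mul_inv_cancel_left₀ cardU_ne]
  constructor
  · rintro ⟨h1, h2⟩
    refine ⟨h1, fun h3 => h2 ?_⟩
    rw [h0, B_xi θ μ h1, h3, mul_zero, mul_zero, mul_zero]
  · rintro ⟨h1, h2⟩
    refine ⟨h1, ?_⟩
    rw [h0, B_xi θ μ h1, mul_inv_cancel_left₀ cardU_ne]
    exact mul_ne_zero (irr_one_ne h1) h2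

lemma B_xi' (θ : AddChar F ℂ) (hθ : θ ≠ 1) (μ : Module.Dual F (nn n F)) {χ : UT n F → ℂ}
    (hχ : IsIrr χ) : IC.B (xi θ μ) χ = if χ ∈ blk θ μ then χ 1 else 0 := by
  rw [B_xi θ μ hχ]
  by_cases h : wt θ μ χ = 0
  · rw [if_neg (fun h' => ((mem_blk θ μ).mp h').2 h), h, mul_zero, mul_zero]
  · rw [if_pos ((mem_blk θ μ).mpr ⟨hχ, h⟩)]
    have h1 := wt_mul θ hθ μ μ hχ
    rw [if_pos rfl] at h1
    have h2 : wt θ μ χ = Nat.card (UT n F) := mul_right_cancel₀ h h1
    rw [h2]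
    field_simp [cardU_ne (n := n) (F := F)]

lemma blk_irr (θ : AddChar F ℂ) (μ : Module.Dual F (nn n F)) : ∀ χ ∈ blk θ μ, IsIrr χ :=
  fun _ h => h.1

/-- the supercharacters of André's theory are the orbit sums -/
theorem sigma_blk (θ : AddChar F ℂ) (hθ : θ ≠ 1) (μ : Module.Dual F (nn n F)) :
    sigma (blk θ μ) = xi θ μ := by
  have h1 : IC.IsClass (xi θ μ) := fun g y => xi_class θ μ g y
  rw [IC.expand (xi θ μ) h1, sigma_eq (blk_irr θ μ), Finset.sum_filter]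
  refine Finset.sum_congr rfl fun χ hχ => ?_
  rw [B_xi' θ hθ μ (irr_iff.mpr hχ)]
  split_ifs
  · rfl
  · rw [zero_smul]

lemma card_orbF_pos (μ : Module.Dual F (nn n F)) : 0 < (orbF μ).card :=
  Finset.card_pos.mpr ⟨μ, mem_orbF.mpr (mem_orb_self μ)⟩

lemma xi_one (θ : AddChar F ℂ) (μ : Module.Dual F (nn n F)) : xi θ μ 1 = (orbF μ).card := by
  rw [xi_eq, lg_one, eta]
  simp

lemma xi_one_ne (θ : AddChar F ℂ) (μ : Module.Dual F (nn n F)) : xi θ μ 1 ≠ 0 := by
  rw [xi_one]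
  exact_mod_cast (card_orbF_pos μ).ne'

lemma blk_nonempty (θ : AddChar F ℂ) (hθ : θ ≠ 1) (μ : Module.Dual F (nn n F)) :
    (blk θ μ).Nonempty := by
  by_contra h
  rw [Set.not_nonempty_iff_eq_empty] at h
  have h1 := congrFun (sigma_blk θ hθ μ) 1
  rw [h] at h1
  apply xi_one_ne θ μ
  rw [← h1]
  unfold sigma
  simp

lemma blk_disj (θ : AddChar F ℂ) (hθ : θ ≠ 1) {μ μ' : Module.Dual F (nn n F)} {χ : UT n F → ℂ}
    (h : χ ∈ blk θ μ) (h' : χ ∈ blk θ μ') : orb μ = orb μ' := by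
  by_contra hne
  have h1 := wt_mul θ hθ μ μ' h.1
  rw [if_neg hne] at h1
  rcases mul_eq_zero.mp h1 with h2 | h2
  · exact ((mem_blk θ μ).mp h).2 h2
  · exact ((mem_blk θ μ').mp h').2 h2

lemma eta_congr (θ : AddChar F ℂ) {μ μ' : Module.Dual F (nn n F)} (h : orb μ = orb μ') :
    eta θ μ = eta θ μ' := by
  funext y
  unfold eta
  refine Finset.sum_congr ?_ fun _ _ => rfl
  ext ν
  rw [mem_orbF, mem_orbF, h]

lemma xi_congr (θ : AddChar F ℂ) {μ μ' : Module.Dual F (nn n F)} (h : orb μ = orb μ') :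
    xi θ μ = xi θ μ' := by
  funext g
  rw [xi_eq, xi_eq, eta_congr θ h]

lemma blk_congr (θ : AddChar F ℂ) {μ μ' : Module.Dual F (nn n F)} (h : orb μ = orb μ') :
    blk θ μ = blk θ μ' := by
  unfold blk
  rw [xi_congr θ h]

lemma blk_eq_iff (θ : AddChar F ℂ) (hθ : θ ≠ 1) {μ μ' : Module.Dual F (nn n F)} :
    blk θ μ = blk θ μ' ↔ orb μ = orb μ' := by
  constructor
  · intro h
    obtain ⟨χ, hχ⟩ := blk_nonempty θ hθ μ
    exact blk_disj θ hθ hχ (h ▸ hχ)
  · exact blk_congr θ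

/-- second orthogonality on the additive group -/
lemma sum_theta_dual (θ : AddChar F ℂ) (hθ : θ ≠ 1) (y : nn n F) :
    ∑ μ : Module.Dual F (nn n F), θ (μ y) = if y = 0 then (Nat.card (UT n F) : ℂ) else 0 := by
  let ev : Module.Dual F (nn n F) →+ F := (LinearMap.applyₗ (R := F) y).toAddMonoidHom
  have hev : ∀ μ, ev μ = μ y := fun μ => rfl
  have h1 := AddChar.sum_eq_ite (θ.compAddMonoidHom ev)
  have h2 : θ.compAddMonoidHom ev = 0 ↔ y = 0 := by
    constructor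
    · intro h
      by_contra hy
      obtain ⟨μ, hμ⟩ : ∃ μ : Module.Dual F (nn n F), μ y ≠ 0 := by
        by_contra hcon
        push Not at hcon
        exact hy ((Module.forall_dual_apply_eq_zero_iff F y).mp hcon)
      apply hθ
      ext t
      have h3 := DFunLike.congr_fun h ((t / μ y) • μ)
      simp only [AddChar.compAddMonoidHom_apply, hev, LinearMap.smul_apply, smul_eq_mul,
        AddChar.zero_apply] at h3
      rw [div_mul_cancel₀ _ hμ] at h3
      rw [h3]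
      rfl
    · rintro rfl
      ext μ
      simp only [AddChar.compAddMonoidHom_apply, hev, map_zero, AddChar.map_zero_eq_one,
        AddChar.zero_apply]
  simp only [AddChar.compAddMonoidHom_apply, hev] at h1
  rw [h1]
  simp only [h2]
  congr 1
  rw [Nat.card_congr (lgE (n := n) (F := F)), ← Nat.card_eq_fintype_card]
  rw [Module.natCard_eq_pow_finrank (K := F) (V := Module.Dual F (nn n F)),
    Module.natCard_eq_pow_finrank (K := F) (V := nn n F), Subspace.dual_finrank_eq]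

lemma exists_blk (θ : AddChar F ℂ) (hθ : θ ≠ 1) {χ : UT n F → ℂ} (hχ : IsIrr χ) :
    ∃ μ : Module.Dual F (nn n F), χ ∈ blk θ μ := by
  by_contra hcon
  push Not at hcon
  have h1 : ∀ μ : Module.Dual F (nn n F), IC.B (xi θ μ) χ = 0 := fun μ => by
    rw [B_xi' θ hθ μ hχ, if_neg (hcon μ)]
  have h2 : ∀ g : UT n F, ∑ μ : Module.Dual F (nn n F), ((orbF μ).card : ℂ)⁻¹ * xi θ μ g =
      if g = 1 then (Nat.card (UT n F) : ℂ) else 0 := by
    intro g
    have h3 : ∑ μ : Module.Dual F (nn n F), ((orbF μ).card : ℂ)⁻¹ * xi θ μ g =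
        ∑ ν : Module.Dual F (nn n F), θ (ν (lg g)) := by
      simp only [xi_eq, eta, Finset.mul_sum]
      rw [Finset.sum_comm' (t' := Finset.univ) (s' := fun ν => orbF ν)]
      · refine Finset.sum_congr rfl fun ν _ => ?_
        have h4 : ∀ μ ∈ orbF ν, ((orbF μ).card : ℂ)⁻¹ * θ (ν (lg g)) =
            ((orbF ν).card : ℂ)⁻¹ * θ (ν (lg g)) := by
          intro μ hμ
          have h5 : orbF μ = orbF ν := by
            ext κ
            rw [mem_orbF, mem_orbF, orb_eq (mem_orbF.mp hμ)]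
          rw [h5]
        rw [Finset.sum_congr rfl h4, Finset.sum_const, nsmul_eq_mul, ← mul_assoc,
          mul_inv_cancel₀, one_mul]
        exact_mod_cast (card_orbF_pos ν).ne'
      · intro μ ν
        simp only [Finset.mem_univ, true_and, and_true, mem_orbF]
        constructor
        · intro h
          rw [← orb_eq_iff, orb_eq h]
        · intro h
          rw [← orb_eq_iff, orb_eq h]
    rw [h3, sum_theta_dual θ hθ]
    have h6 : lg g = 0 ↔ g = 1 := by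
      rw [← lg_one]
      exact lg_injective.eq_iff
    simp only [h6]
  have h3 : IC.B (fun g : UT n F => if g = 1 then (Nat.card (UT n F) : ℂ) else 0) χ = χ 1 := by
    unfold IC.B
    simp only [ite_mul, zero_mul, Finset.sum_ite_eq', Finset.mem_univ, if_true, inv_one]
    rw [← mul_assoc, inv_mul_cancel₀ cardU_ne, one_mul]
  have h4 : (fun g : UT n F => if g = 1 then (Nat.card (UT n F) : ℂ) else 0) =
      ∑ μ : Module.Dual F (nn n F), ((orbF μ).card : ℂ)⁻¹ • xi θ μ := by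
    funext g
    rw [← h2 g, Finset.sum_apply]
    rfl
  rw [h4, IC.B_sum_left] at h3
  simp only [IC.B_smul_left, h1, mul_zero, Finset.sum_const_zero] at h3
  exact irr_one_ne hχ h3.symm

/-- the blocks partition the irreducible characters -/
theorem partX (θ : AddChar F ℂ) (hθ : θ ≠ 1) :
    IsPart {χ : UT n F → ℂ | IsIrr χ} (andreX n θ) := by
  constructor
  · rintro B ⟨μ, rfl⟩
    exact ⟨blk_nonempty θ hθ μ, blk_irr θ μ⟩
  · intro χ hχ
    obtain ⟨μ, hμ⟩ := exists_blk θ hθ hχ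
    refine ⟨blk θ μ, ⟨⟨μ, rfl⟩, hμ⟩, ?_⟩
    rintro B ⟨⟨μ', rfl⟩, hμ'⟩
    exact blk_congr θ (blk_disj θ hθ hμ' hμ)

lemma mem_cls {x g : UT n F} : g ∈ cls x ↔ ∃ u v : UT n F, lg g = tr u v (lg x) := by
  constructor
  · rintro ⟨u, v, h⟩
    exact ⟨u, v, Subtype.ext h⟩
  · rintro ⟨u, v, h⟩
    exact ⟨u, v, congrArg (fun y : nn n F => (y : Matrix (Fin n) (Fin n) F)) h⟩

lemma mem_cls_self (x : UT n F) : x ∈ cls x := mem_cls.mpr ⟨1, 1, (tr_one _).symm⟩

lemma cls_eq {x g : UT n F} (h : g ∈ cls x) : cls g = cls x := by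
  obtain ⟨a, b, hab⟩ := mem_cls.mp h
  ext k
  rw [mem_cls, mem_cls]
  constructor
  · rintro ⟨u, v, huv⟩
    exact ⟨u * a, b * v, by rw [huv, hab, tr_tr]⟩
  · rintro ⟨u, v, huv⟩
    refine ⟨u * a⁻¹, b⁻¹ * v, ?_⟩
    rw [huv, hab, tr_tr, inv_mul_cancel_right, mul_inv_cancel_left]

theorem partK : IsPart Set.univ (andreK n F) := by
  constructor
  · rintro C ⟨x, rfl⟩
    exact ⟨⟨x, mem_cls_self x⟩, Set.subset_univ _⟩
  · intro g _
    refine ⟨cls g, ⟨⟨g, rfl⟩, mem_cls_self g⟩, ?_⟩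
    rintro C ⟨⟨x, rfl⟩, hx⟩
    exact (cls_eq hx).symm

lemma one_andreK : ({1} : Set (UT n F)) ∈ andreK n F := by
  refine ⟨1, ?_⟩
  ext g
  rw [Set.mem_singleton_iff, mem_cls, lg_one]
  constructor
  · rintro rfl
    exact ⟨1, 1, by rw [lg_one, map_zero]⟩
  · rintro ⟨u, v, h⟩
    rw [map_zero, ← lg_one] at h
    exact lg_injective h

lemma xi_const (θ : AddChar F ℂ) (μ : Module.Dual F (nn n F)) {x g : UT n F} (h : g ∈ cls x) :
    xi θ μ g = xi θ μ x := by
  obtain ⟨u, v, huv⟩ := mem_cls.mp h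
  rw [xi_eq, xi_eq, huv, eta_tr]

end Pool.Agent.Helper449_SCT
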