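import Pool.Agent.Helper449_SCT.And2

/-!
# André's theory is a supercharacter theory: counting
-/

set_option linter.style.haveILetI false
set_option linter.unusedSectionVars false

open scoped BigOperators Classical
open Pool.Agent.Helper884

noncomputable section

namespace Pool.Agent.Helper449_SCT

variable {n : ℕ} {F : Type} [Field F] [Finite F]

/-- `(u, v) • y = u y v⁻¹` -/
@[reducible] def actNn : MulAction (UT n F × UT n F) (nn n F) where
  smul p y := tr p.1 p.2⁻¹ y
  one_smul y := by
    change tr (1 : UT n F) (1 : UT n F)⁻¹ y = y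
    rw [inv_one, tr_one]
  mul_smul p q y := by
    change tr (p.1 * q.1) (p.2 * q.2)⁻¹ y = tr p.1 p.2⁻¹ (tr q.1 q.2⁻¹ y)
    rw [tr_tr, mul_inv_rev]

/-- `((u, v) • μ)(y) = μ(u⁻¹ y v)` -/
@[reducible] def actDual : MulAction (UT n F × UT n F) (Module.Dual F (nn n F)) where
  smul p μ := act p.1⁻¹ p.2 μ
  one_smul μ := by
    change act (1 : UT n F)⁻¹ (1 : UT n F) μ = μ
    rw [inv_one, act_one]
  mul_smul p q μ := by
    change act (p.1 * q.1)⁻¹ (p.2 * q.2) μ = act p.1⁻¹ p.2 (act q.1⁻¹ q.2 μ)
    rw [act_act, mul_inv_rev]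

attribute [local instance] actNn actDual

lemma smul_nn (p : UT n F × UT n F) (y : nn n F) : p • y = tr p.1 p.2⁻¹ y := rfl

lemma smul_dual (p : UT n F × UT n F) (μ : Module.Dual F (nn n F)) :
    p • μ = act p.1⁻¹ p.2 μ := rfl

lemma card_fixed (p : UT n F × UT n F) :
    Fintype.card (MulAction.fixedBy (nn n F) p) =
      Fintype.card (MulAction.fixedBy (Module.Dual F (nn n F)) p) := by
  set T : nn n F →ₗ[F] nn n F := tr p.1 p.2⁻¹ - LinearMap.id with hT
  have h1 : MulAction.fixedBy (nn n F) p = (LinearMap.ker T : Set (nn n F)) := by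
    ext y
    rw [MulAction.mem_fixedBy, smul_nn, SetLike.mem_coe, LinearMap.mem_ker, hT,
      LinearMap.sub_apply, LinearMap.id_apply, sub_eq_zero]
  have h2 : MulAction.fixedBy (Module.Dual F (nn n F)) p =
      (LinearMap.ker T.dualMap : Set (Module.Dual F (nn n F))) := by
    ext μ
    rw [MulAction.mem_fixedBy, smul_dual, SetLike.mem_coe, LinearMap.mem_ker]
    constructor
    · intro h
      ext y : 1
      rw [LinearMap.dualMap_apply, hT, LinearMap.sub_apply, LinearMap.id_apply, map_sub,
        LinearMap.zero_apply, sub_eq_zero]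
      conv_lhs => rw [← h]
      rw [act_apply, tr_tr, inv_mul_cancel, inv_mul_cancel, tr_one]
    · intro h
      ext y : 1
      have h3 := LinearMap.congr_fun h (tr p.1⁻¹ p.2 y)
      rw [LinearMap.dualMap_apply, hT, LinearMap.sub_apply, LinearMap.id_apply, map_sub,
        LinearMap.zero_apply, sub_eq_zero, tr_tr, mul_inv_cancel, mul_inv_cancel, tr_one] at h3
      rw [act_apply, h3]
  rw [← Nat.card_eq_fintype_card, ← Nat.card_eq_fintype_card, h1, h2]
  change Nat.card (LinearMap.ker T) = Nat.card (LinearMap.ker T.dualMap)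
  rw [Module.natCard_eq_pow_finrank (K := F) (V := LinearMap.ker T),
    Module.natCard_eq_pow_finrank (K := F) (V := LinearMap.ker T.dualMap)]
  congr 1
  have h3 := LinearMap.finrank_range_add_finrank_ker T
  have h4 := LinearMap.finrank_range_add_finrank_ker T.dualMap
  rw [LinearMap.finrank_range_dualMap_eq_finrank_range, Subspace.dual_finrank_eq] at h4
  omega

lemma card_orbits :
    Nat.card (Quotient (MulAction.orbitRel (UT n F × UT n F) (nn n F))) =
      Nat.card (Quotient (MulAction.orbitRel (UT n F × UT n F) (Module.Dual F (nn n F)))) := by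
  have h1 := MulAction.sum_card_fixedBy_eq_card_orbits_mul_card_group (UT n F × UT n F) (nn n F)
  have h2 := MulAction.sum_card_fixedBy_eq_card_orbits_mul_card_group (UT n F × UT n F)
    (Module.Dual F (nn n F))
  have h3 : 0 < Fintype.card (UT n F × UT n F) := Fintype.card_pos
  rw [Finset.sum_congr rfl (fun p _ => card_fixed p), h2] at h1
  rw [Nat.card_eq_fintype_card, Nat.card_eq_fintype_card]
  exact (Nat.eq_of_mul_eq_mul_right h3 h1).symm

lemma ncard_range {α β : Type} (f : α → β) (r : Setoid α) (h : ∀ a b, f a = f b ↔ r a b) :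
    (Set.range f).ncard = Nat.card (Quotient r) := by
  have hr : r = Setoid.ker f := by
    ext a b
    rw [Setoid.ker_def]
    exact (h a b).symm
  subst hr
  rw [← Nat.card_coe_set_eq]
  exact (Nat.card_congr (Setoid.quotientKerEquivRange f)).symm

lemma ncard_andreK : (andreK n F).ncard =
    Nat.card (Quotient (MulAction.orbitRel (UT n F × UT n F) (nn n F))) := by
  rw [← ncard_range (fun y : nn n F => cls (ex y))]
  · congr 1
    ext C
    constructor
    · rintro ⟨x, rfl⟩
      refine ⟨lg x, ?_⟩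
      have : ex (lg x) = x := lg_injective (lg_ex _)
      simp only [this]
    · rintro ⟨y, rfl⟩
      exact ⟨_, rfl⟩
  · intro y z
    have h0 : cls (ex y) = cls (ex z) ↔ ex y ∈ cls (ex z) :=
      ⟨fun h => h ▸ mem_cls_self _, cls_eq⟩
    rw [h0, mem_cls, lg_ex, lg_ex, MulAction.orbitRel_apply, MulAction.mem_orbit_iff]
    constructor
    · rintro ⟨u, v, h⟩
      exact ⟨(u, v⁻¹), by rw [smul_nn, h, inv_inv]⟩
    · rintro ⟨p, h⟩
      exact ⟨p.1, p.2⁻¹, h.symm⟩

lemma ncard_andreX (θ : AddChar F ℂ) (hθ : θ ≠ 1) : (andreX n θ).ncard =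
    Nat.card (Quotient (MulAction.orbitRel (UT n F × UT n F) (Module.Dual F (nn n F)))) := by
  have h1 : andreX n θ = Set.range (fun μ : Module.Dual F (nn n F) => blk θ μ) := by
    ext B
    constructor
    · rintro ⟨μ, rfl⟩
      exact ⟨μ, rfl⟩
    · rintro ⟨μ, rfl⟩
      exact ⟨μ, rfl⟩
  have h2 : ∀ μ ν : Module.Dual F (nn n F), blk θ μ = blk θ ν ↔
      MulAction.orbitRel (UT n F × UT n F) (Module.Dual F (nn n F)) μ ν := by
    intro μ ν
    rw [blk_eq_iff θ hθ, orb_eq_iff, MulAction.orbitRel_apply, MulAction.mem_orbit_iff]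
    constructor
    · rintro ⟨u, v, h⟩
      exact ⟨(u⁻¹, v), by rw [smul_dual, h, inv_inv]⟩
    · rintro ⟨p, h⟩
      exact ⟨p.1⁻¹, p.2, h.symm⟩
  rw [h1]
  rw [← Nat.card_coe_set_eq]
  have hr : MulAction.orbitRel (UT n F × UT n F) (Module.Dual F (nn n F)) =
      Setoid.ker (fun μ : Module.Dual F (nn n F) => blk θ μ) := by
    ext a b
    rw [Setoid.ker_def]
    exact (h2 a b).symm
  rw [hr]
  exact (Nat.card_congr (Setoid.quotientKerEquivRange _)).symm

/-- André's theory is a supercharacter theory -/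
theorem andre_isSCT (θ : AddChar F ℂ) (hθ : θ ≠ 1) : IsSCT (andreX n θ) (andreK n F) where
  partX := partX θ hθ
  partK := partK
  card := by rw [ncard_andreK, ncard_andreX θ hθ, card_orbits]
  one := one_andreK
  const := by
    rintro B ⟨μ, rfl⟩ C ⟨x, rfl⟩ g hg h hh
    rw [sigma_blk θ hθ, xi_const θ μ hg, xi_const θ μ hh]

end Pool.Agent.Helper449_SCT
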