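import Pool.Agent.Helper449_SCT.And3

/-!
# Single-box characters are irreducible
-/

set_option linter.style.haveILetI false
set_option linter.unusedSectionVars false

open scoped BigOperators Classical
open Pool.Agent.Helper884

noncomputable section

namespace Pool.Agent.Helper449_SCT

variable {n : ℕ} {F : Type} [Field F] [Finite F]

lemma avg {S : Type} [Fintype S] (φ : S → Module.Dual F (nn n F)) (lam : Module.Dual F (nn n F))
    (h1 : ∀ s, φ s ∈ orb lam)
    (h2 : ∀ ν ∈ orb lam, ∃ e : S ≃ S, ∀ s, φ (e s) = lam ↔ φ s = ν) (h3 : ∃ s, φ s = lam) :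
    ∃ m : ℕ, 0 < m ∧ ∀ f : Module.Dual F (nn n F) → ℂ, ∑ s, f (φ s) = m * ∑ ν ∈ orbF lam, f ν := by
  refine ⟨(Finset.univ.filter fun s => φ s = lam).card, ?_, ?_⟩
  · obtain ⟨s, hs⟩ := h3
    exact Finset.card_pos.mpr ⟨s, by simp [hs]⟩
  · intro f
    rw [← Finset.sum_fiberwise_of_maps_to (s := Finset.univ) (t := orbF lam) (g := φ)
      (fun s _ => mem_orbF.mpr (h1 s)), Finset.mul_sum]
    refine Finset.sum_congr rfl fun ν hν => ?_
    obtain ⟨e, he⟩ := h2 ν (mem_orbF.mp hν)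
    have h4 : (Finset.univ.filter fun s => φ s = ν).card =
        (Finset.univ.filter fun s => φ s = lam).card := by
      refine Finset.card_bij' (fun s _ => e s) (fun s _ => e.symm s) ?_ ?_ ?_ ?_
      · intro s hs
        rw [Finset.mem_filter] at hs ⊢
        exact ⟨Finset.mem_univ _, (he s).mpr hs.2⟩
      · intro s hs
        rw [Finset.mem_filter] at hs ⊢
        refine ⟨Finset.mem_univ _, (he _).mp ?_⟩
        rw [Equiv.apply_symm_apply]
        exact hs.2
      · intro s _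
        exact e.symm_apply_apply s
      · intro s _
        exact e.apply_symm_apply s
    rw [Finset.sum_congr rfl (g := fun _ => f ν)
      (fun s hs => by rw [(Finset.mem_filter.mp hs).2]), Finset.sum_const, h4, nsmul_eq_mul]

/-- averaging over both factors -/
lemma avg2 (lam : Module.Dual F (nn n F)) :
    ∃ m : ℕ, 0 < m ∧ ∀ f : Module.Dual F (nn n F) → ℂ,
      ∑ p : UT n F × UT n F, f (act p.1 p.2 lam) = m * ∑ ν ∈ orbF lam, f ν := by
  refine avg (fun p : UT n F × UT n F => act p.1 p.2 lam) lam ?_ ?_ ?_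
  · exact fun p => ⟨p.1, p.2, rfl⟩
  · rintro ν ⟨k, l, rfl⟩
    refine ⟨(Equiv.mulRight k⁻¹).prodCongr (Equiv.mulLeft l⁻¹), fun p => ?_⟩
    simp only [Equiv.prodCongr_apply, Prod.map_fst, Prod.map_snd, Equiv.coe_mulRight,
      Equiv.coe_mulLeft]
    rw [← act_act]
    constructor
    · intro h
      rw [← act_act_inv k l (act p.1 p.2 lam), h]
    · intro h
      rw [h, act_inv_act]
  · exact ⟨(1, 1), act_one lam⟩

/-- averaging over conjugations, when the orbit is a single conjugation orbit -/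
lemma avg1 (lam : Module.Dual F (nn n F))
    (hT : ∀ ν ∈ orb lam, ∃ k : UT n F, ν = act k k⁻¹ lam) :
    ∃ m : ℕ, 0 < m ∧ ∀ f : Module.Dual F (nn n F) → ℂ,
      ∑ h : UT n F, f (act h h⁻¹ lam) = m * ∑ ν ∈ orbF lam, f ν := by
  refine avg (fun h : UT n F => act h h⁻¹ lam) lam ?_ ?_ ?_
  · exact fun p => ⟨p, p⁻¹, rfl⟩
  · intro ν hν
    obtain ⟨k, rfl⟩ := hT ν hν
    refine ⟨Equiv.mulRight k⁻¹, fun h => ?_⟩
    simp only [Equiv.coe_mulRight]
    have e1 : act (h * k⁻¹) (h * k⁻¹)⁻¹ lam = act k⁻¹ k (act h h⁻¹ lam) := by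
      rw [act_act, mul_inv_rev, inv_inv]
    rw [e1]
    constructor
    · intro h'
      have h2 := act_act_inv k k⁻¹ (act h h⁻¹ lam)
      rw [inv_inv, h'] at h2
      exact h2.symm
    · intro h'
      rw [h', act_act, mul_inv_cancel, act_one]
  · exact ⟨1, by rw [inv_one, act_one]⟩

lemma avg1' (lam : Module.Dual F (nn n F))
    (hT : ∀ ν ∈ orb lam, ∃ k : UT n F, ν = act k k⁻¹ lam) :
    ∃ m : ℕ, 0 < m ∧ ∀ f : Module.Dual F (nn n F) → ℂ, ∀ ν ∈ orb lam,
      ∑ h : UT n F, f (act h h⁻¹ ν) = m * ∑ ν ∈ orbF lam, f ν := by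
  obtain ⟨m, hm, h1⟩ := avg1 lam hT
  refine ⟨m, hm, fun f ν hν => ?_⟩
  obtain ⟨k, rfl⟩ := hT ν hν
  rw [← h1 f]
  refine Fintype.sum_equiv (Equiv.mulLeft k) _ _ fun h => ?_
  rw [act_act, Equiv.coe_mulLeft, mul_inv_rev]

lemma lg_mul_right (g z : UT n F) : lg (g * z) = tr 1 z (lg g) + lg z := by
  apply Subtype.ext
  rw [Submodule.coe_add, coe_lg, coe_tr, coe_lg, coe_lg, mat_mul, mat_one, one_mul, sub_mul,
    one_mul, sub_add_sub_cancel]

lemma blk_conv (θ : AddChar F ℂ) (hθ : θ ≠ 1) {lam : Module.Dual F (nn n F)} {χ : UT n F → ℂ}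
    (hχ : χ ∈ blk θ lam) (g : UT n F) :
    (Nat.card (UT n F) : ℂ) * χ g = ∑ z : UT n F, xi θ lam (g * z⁻¹) * χ z := by
  have hw : wt θ lam χ = Nat.card (UT n F) := by
    have h1 := wt_mul θ hθ lam lam hχ.1
    rw [if_pos rfl] at h1
    exact mul_right_cancel₀ ((mem_blk θ lam).mp hχ).2 h1
  obtain ⟨V, _, _, _, ρ, hr, hρ⟩ := hχ.1
  have h2 := H254R3.IN.class_scalar ρ hr (xi θ (-lam)) (fun g y => xi_class θ _ g y)
  have h3 : (∑ g, xi θ (-lam) g * ρ.character g) / ρ.character 1 = Nat.card (UT n F) := by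
    rw [← hw, hρ]
    rfl
  rw [h3] at h2
  have h4 := congrArg (fun T : V →ₗ[ℂ] V => LinearMap.trace ℂ V (T * ρ g)) h2
  simp only [Finset.sum_mul, map_sum, smul_mul_assoc, map_smul, ← map_mul, smul_eq_mul] at h4
  have h5 : LinearMap.trace ℂ V ((LinearMap.id : V →ₗ[ℂ] V) * ρ g) = χ g := by
    rw [hρ]
    rfl
  rw [h5] at h4
  rw [← h4]
  refine Fintype.sum_equiv (Equiv.mulRight g) _ _ fun x => ?_
  rw [Equiv.coe_mulRight, mul_inv_rev, mul_inv_cancel_left, xi_inv, hρ]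
  rfl

/-- if the orbit is a single conjugation orbit, all constituents are proportional to the orbit
sum -/
lemma blk_prop (θ : AddChar F ℂ) (hθ : θ ≠ 1) {lam : Module.Dual F (nn n F)}
    (hT : ∀ ν ∈ orb lam, ∃ k : UT n F, ν = act k k⁻¹ lam) {χ : UT n F → ℂ}
    (hχ : χ ∈ blk θ lam) : ∃ c : ℂ, ∀ g, χ g = c * xi θ lam g := by
  obtain ⟨m, _, hm⟩ := avg1' lam hT
  have h1 : ∀ g, (Nat.card (UT n F) : ℂ) * ((Nat.card (UT n F) : ℂ) * χ g) =
      (∑ z : UT n F, ∑ ν ∈ orbF lam, χ z * θ (ν (lg z⁻¹)) * m) * xi θ lam g := by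
    intro g
    have h2 : (Nat.card (UT n F) : ℂ) * ((Nat.card (UT n F) : ℂ) * χ g) =
        ∑ h : UT n F, (Nat.card (UT n F) : ℂ) * χ (h * g * h⁻¹) := by
      have h3 : ∀ h : UT n F, χ (h * g * h⁻¹) = χ g := fun h =>
        H254R3.IN.IsIrr.conj (G := UT n F) hχ.1 g h
      simp only [h3]
      rw [Finset.sum_const, Finset.card_univ, nsmul_eq_mul, Nat.card_eq_fintype_card]
    rw [h2]
    have h4 : ∀ h : UT n F, (Nat.card (UT n F) : ℂ) * χ (h * g * h⁻¹) =
        ∑ z : UT n F, ∑ ν ∈ orbF lam, χ z * θ (ν (lg z⁻¹)) *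
          θ ((act h h⁻¹ (act 1 z⁻¹ ν)) (lg g)) := by
      intro h
      rw [blk_conv θ hθ hχ]
      refine Finset.sum_congr rfl fun z _ => ?_
      rw [xi_eq, lg_mul_right, lg_conj, eta, Finset.sum_mul]
      refine Finset.sum_congr rfl fun ν _ => ?_
      rw [map_add, AddChar.map_add_eq_mul, act_apply, act_apply]
      ring
    simp only [h4]
    rw [Finset.sum_comm, Finset.sum_mul]
    refine Finset.sum_congr rfl fun z _ => ?_
    rw [Finset.sum_comm, Finset.sum_mul]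
    refine Finset.sum_congr rfl fun ν hν => ?_
    rw [← Finset.mul_sum, hm (fun κ => θ (κ (lg g))) (act 1 z⁻¹ ν)
      (act_mem_orb _ _ (mem_orbF.mp hν)), xi_eq, eta]
    ring
  refine ⟨(Nat.card (UT n F) : ℂ)⁻¹ * ((Nat.card (UT n F) : ℂ)⁻¹ *
    (∑ z : UT n F, ∑ ν ∈ orbF lam, χ z * θ (ν (lg z⁻¹)) * m)), fun g => ?_⟩
  have h5 := h1 g
  have h6 := cardU_ne (n := n) (F := F)
  field_simp
  linear_combination h5

lemma blk_singleton (θ : AddChar F ℂ) (hθ : θ ≠ 1) {lam : Module.Dual F (nn n F)}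
    (hT : ∀ ν ∈ orb lam, ∃ k : UT n F, ν = act k k⁻¹ lam) :
    ∃ χ : UT n F → ℂ, IsIrr χ ∧ blk θ lam = {χ} ∧ ∃ c : ℝ, 0 < c ∧ ∀ g, χ g = c * xi θ lam g := by
  obtain ⟨χ, hχ⟩ := blk_nonempty θ hθ lam
  obtain ⟨c, hc⟩ := blk_prop θ hθ hT hχ
  have hc0 : c ≠ 0 := by
    rintro rfl
    apply irr_one_ne hχ.1
    rw [hc, zero_mul]
  have hsing : blk θ lam = {χ} := by
    apply Set.eq_singleton_iff_unique_mem.mpr
    refine ⟨hχ, fun ψ hψ => ?_⟩
    obtain ⟨d, hd⟩ := blk_prop θ hθ hT hψ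
    have hd0 : d ≠ 0 := by
      rintro rfl
      apply irr_one_ne hψ.1
      rw [hd, zero_mul]
    have h1 : ψ = (d / c) • χ := by
      funext g
      rw [Pi.smul_apply, smul_eq_mul, hd, hc]
      field_simp
    by_contra hne
    have h2 := irr_B hψ.1 hχ.1
    rw [if_neg hne, h1, IC.B_smul_left, irr_B hχ.1 hχ.1, if_pos rfl, mul_one] at h2
    exact (div_ne_zero hd0 hc0) h2
  refine ⟨χ, hχ.1, hsing, ?_⟩
  obtain ⟨k, hk, hk1⟩ := H254R3.IN.IsIrr.deg (G := UT n F) hχ.1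
  refine ⟨(k : ℝ)⁻¹, by positivity, fun g => ?_⟩
  have h3 := congrFun (sigma_blk θ hθ lam) g
  rw [hsing, sigma_singleton, ← hk1] at h3
  rw [← h3]
  push_cast
  rw [inv_mul_cancel_left₀]
  exact_mod_cast hk.ne'

lemma box_apply (i j : Fin n) (a : F) (y : nn n F) :
    box i j a y = a * (y : Matrix (Fin n) (Fin n) F) i j := rfl

/-- the element with prescribed entries strictly between `i` and `j` in row `i` -/
def rowY (w : UT n F) (i j : Fin n) : nn n F :=
  ⟨fun p q => if p = i ∧ i < q ∧ q < j then mat w p q else 0, fun p q hqp => by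
    change (if p = i ∧ i < q ∧ q < j then mat w p q else 0) = 0
    rw [if_neg]
    rintro ⟨rfl, h, _⟩
    exact absurd h (not_lt.mpr hqp)⟩

lemma rowY_apply (w : UT n F) (i j p q : Fin n) :
    (rowY w i j : Matrix (Fin n) (Fin n) F) p q =
      if p = i ∧ i < q ∧ q < j then mat w p q else 0 := rfl

lemma mat_diag (w : UT n F) (i : Fin n) : mat w i i = 1 := by
  have h := w.2 i i le_rfl
  change mat w i i - (1 : Matrix (Fin n) (Fin n) F) i i = 0 at h
  rw [Matrix.one_apply_eq, sub_eq_zero] at h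
  exact h

lemma mat_lower (w : UT n F) {i j : Fin n} (hij : j < i) : mat w i j = 0 := by
  have h := w.2 i j hij.le
  change mat w i j - (1 : Matrix (Fin n) (Fin n) F) i j = 0 at h
  rw [Matrix.one_apply_ne hij.ne', sub_zero] at h
  exact h

lemma box_conj (i j : Fin n) (hij : i < j) (a : F) (w : UT n F) :
    act w 1 (box i j a) = act (ex (rowY w i j)) (ex (rowY w i j))⁻¹ (box i j a) := by
  ext y : 1
  rw [act_apply, act_apply, box_apply, box_apply, coe_tr, coe_tr, mat_one, mul_one]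
  congr 1
  set h := ex (rowY w i j) with hh
  have hmat : mat h = 1 + (rowY w i j : Matrix (Fin n) (Fin n) F) := mat_ex _
  set z := mat h * (y : Matrix (Fin n) (Fin n) F) * mat h⁻¹ with hz
  have h1 : z * mat h = mat h * (y : Matrix (Fin n) (Fin n) F) := by
    rw [hz, mul_assoc, mat_inv_mul, mul_one]
  have h2 : (z * mat h) i j = z i j := by
    rw [hmat, mul_add, mul_one, Matrix.add_apply, Matrix.mul_apply]
    rw [Finset.sum_eq_zero, add_zero]
    intro k _
    rw [rowY_apply, if_neg, mul_zero]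
    rintro ⟨_, _, h⟩
    exact lt_irrefl _ h
  rw [← h2, h1, Matrix.mul_apply, Matrix.mul_apply]
  refine Finset.sum_congr rfl fun k _ => ?_
  rcases lt_trichotomy k i with hk | rfl | hk
  · rw [mat_lower w hk, mat_lower h hk]
  · rw [mat_diag, mat_diag]
  · by_cases hkj : k < j
    · rw [hmat, Matrix.add_apply, Matrix.one_apply_ne hk.ne, zero_add, rowY_apply,
        if_pos ⟨rfl, hk, hkj⟩]
    · rw [y.2 k j (not_lt.mp hkj), mul_zero, mul_zero]

lemma box_trans (i j : Fin n) (hij : i < j) (a : F) :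
    ∀ ν ∈ orb (box i j a : Module.Dual F (nn n F)), ∃ k : UT n F, ν = act k k⁻¹ (box i j a) := by
  rintro ν ⟨u, v, rfl⟩
  refine ⟨ex (rowY (u * v) i j) * v⁻¹, ?_⟩
  have h1 : act u v (box i j a) = act v⁻¹ v (act (u * v) 1 (box i j a)) := by
    rw [act_act, mul_inv_cancel_right, mul_one]
  rw [h1, box_conj i j hij, act_act, mul_inv_rev, inv_inv]

/-- André's theory contains all single-box irreducible characters -/
theorem andre_hasBoxes (θ : AddChar F ℂ) (hθ : θ ≠ 1) : HasBoxes θ (andreX n θ) := by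
  intro i j hij a _
  obtain ⟨χ, h1, h2, h3⟩ := blk_singleton θ hθ (box_trans i j hij a)
  exact ⟨χ, h1, ⟨box i j a, h2.symm⟩, h3⟩

end Pool.Agent.Helper449_SCT
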