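import Mathlib

/-!
# Supercharacter theories and André's theory of the unitriangular group: definitions
-/

open scoped BigOperators Classical

noncomputable section

namespace Pool.Agent.Helper449_SCT

/-- `χ` is the character of an irreducible finite-dimensional complex representation of `G`. -/
def IsIrr {G : Type} [Group G] (χ : G → ℂ) : Prop :=
  ∃ (V : Type) (_ : AddCommGroup V) (_ : Module ℂ V) (_ : FiniteDimensional ℂ V)
    (ρ : Representation ℂ G V), ρ.IsIrreducible ∧ χ = ρ.character

/-- `P` is a partition of the set `S`: its members are nonempty subsets of `S` and each element of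
`S` lies in exactly one of them. -/
def IsPart {α : Type} (S : Set α) (P : Set (Set α)) : Prop :=
  (∀ B ∈ P, B.Nonempty ∧ B ⊆ S) ∧ ∀ x ∈ S, ∃! B, B ∈ P ∧ x ∈ B

/-- The character `σ_X = ∑_{ψ ∈ X} ψ(1) ψ`. -/
def sigma {G : Type} [Group G] (X : Set (G → ℂ)) (g : G) : ℂ := ∑ᶠ ψ ∈ X, ψ 1 * ψ g

/-- `(X, K)` is a supercharacter theory of the finite group `G` (Diaconis–Isaacs). -/
structure IsSCT {G : Type} [Group G] (X : Set (Set (G → ℂ))) (K : Set (Set G)) : Prop where
  /-- `X` is a partition of `Irr(G)` -/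
  partX : IsPart {χ : G → ℂ | IsIrr χ} X
  /-- `K` is a partition of `G` -/
  partK : IsPart Set.univ K
  /-- `|X| = |K|` -/
  card : X.ncard = K.ncard
  /-- `{1}` is a superclass -/
  one : {1} ∈ K
  /-- every `σ_B`, `B ∈ X`, is constant on every block of `K` -/
  const : ∀ B ∈ X, ∀ C ∈ K, ∀ g ∈ C, ∀ h ∈ C, sigma B g = sigma B h

/-- Strictly upper triangular `n × n` matrices. -/
def nn (n : ℕ) (F : Type) [Field F] : Submodule F (Matrix (Fin n) (Fin n) F) where
  carrier := {y | ∀ i j, j ≤ i → y i j = 0}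
  zero_mem' := fun _ _ _ => rfl
  add_mem' := fun {a b} ha hb i j h => by
    rw [Matrix.add_apply, ha i j h, hb i j h, add_zero]
  smul_mem' := fun c a ha i j h => by
    rw [Matrix.smul_apply, ha i j h, smul_zero]

lemma nn_mul {n : ℕ} {F : Type} [Field F] {a b : Matrix (Fin n) (Fin n) F} (ha : a ∈ nn n F)
    (hb : b ∈ nn n F) : a * b ∈ nn n F := by
  intro i j h
  rw [Matrix.mul_apply]
  refine Finset.sum_eq_zero fun k _ => ?_
  rcases le_or_gt k i with h1 | h1
  · rw [ha i k h1, zero_mul]
  · rw [hb k j (h.trans h1.le), mul_zero]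

lemma nn_one_mul {n : ℕ} {F : Type} [Field F] {a b : Matrix (Fin n) (Fin n) F}
    (ha : a - 1 ∈ nn n F) (hb : b - 1 ∈ nn n F) : a * b - 1 ∈ nn n F := by
  have h : a * b - 1 = (a - 1) * (b - 1) + ((a - 1) + (b - 1)) := by noncomm_ring
  rw [h]
  exact (nn n F).add_mem (nn_mul ha hb) ((nn n F).add_mem ha hb)

lemma nn_pow {n : ℕ} {F : Type} [Field F] {a : Matrix (Fin n) (Fin n) F}
    (ha : a - 1 ∈ nn n F) (k : ℕ) : a ^ k - 1 ∈ nn n F := by
  induction k with
  | zero =>
    rw [pow_zero, sub_self]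
    exact (nn n F).zero_mem
  | succ k ih =>
    rw [pow_succ]
    exact nn_one_mul ih ha

lemma nn_inv {n : ℕ} {F : Type} [Field F] [Finite F] {a : (Matrix (Fin n) (Fin n) F)ˣ}
    (ha : (a : Matrix (Fin n) (Fin n) F) - 1 ∈ nn n F) :
    ((a⁻¹ : (Matrix (Fin n) (Fin n) F)ˣ) : Matrix (Fin n) (Fin n) F) - 1 ∈ nn n F := by
  haveI : Finite (Matrix (Fin n) (Fin n) F) := inferInstanceAs (Finite (Fin n → Fin n → F))
  have hpos : 0 < orderOf a := orderOf_pos a
  have h : a⁻¹ = a ^ (orderOf a - 1) := by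
    rw [inv_eq_iff_mul_eq_one, ← pow_succ', Nat.sub_add_cancel hpos, pow_orderOf_eq_one]
  rw [h, Units.val_pow_eq_pow_val]
  exact nn_pow ha _

/-- The group `U_n(F)` of upper unitriangular matrices over the finite field `F`: the invertible
matrices `g` with `g - 1` strictly upper triangular. -/
def UT (n : ℕ) (F : Type) [Field F] [Finite F] : Subgroup (Matrix (Fin n) (Fin n) F)ˣ where
  carrier := {g | (g : Matrix (Fin n) (Fin n) F) - 1 ∈ nn n F}
  one_mem' := by
    change ((1 : (Matrix (Fin n) (Fin n) F)ˣ) : Matrix (Fin n) (Fin n) F) - 1 ∈ nn n F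
    rw [Units.val_one, sub_self]
    exact (nn n F).zero_mem
  mul_mem' := fun ha hb => nn_one_mul ha hb
  inv_mem' := fun ha => nn_inv ha

variable {n : ℕ} {F : Type} [Field F] [Finite F]

/-- the matrix of an element of `U_n(F)` -/
def mat (g : UT n F) : Matrix (Fin n) (Fin n) F := ((g : (Matrix (Fin n) (Fin n) F)ˣ) :
  Matrix (Fin n) (Fin n) F)

lemma mat_mul (g h : UT n F) : mat (g * h) = mat g * mat h := rfl

lemma mat_one : mat (1 : UT n F) = 1 := rfl

/-- `g - 1` as a strictly upper triangular matrix -/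
def lg (g : UT n F) : nn n F := ⟨mat g - 1, g.2⟩

/-- the linear map `y ↦ u y v` on strictly upper triangular matrices -/
def tr (u v : UT n F) : nn n F →ₗ[F] nn n F where
  toFun y := ⟨mat u * y * mat v, by
    have h : mat u * (y : Matrix (Fin n) (Fin n) F) * mat v =
        (mat u - 1) * y * (mat v - 1) + ((mat u - 1) * y + (y * (mat v - 1) + y)) := by
      noncomm_ring
    rw [h]
    have hu := u.2
    have hv := v.2
    have hy := y.2
    exact (nn n F).add_mem (nn_mul (nn_mul hu hy) hv) ((nn n F).add_mem (nn_mul hu hy)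
      ((nn n F).add_mem (nn_mul hy hv) hy))⟩
  map_add' a b := by
    ext : 1
    simp [mul_add, add_mul]
  map_smul' c a := by
    ext : 1
    simp

/-- the action `(u μ v)(y) = μ(u y v)` on the dual of the strictly upper triangular matrices -/
def act (u v : UT n F) (μ : Module.Dual F (nn n F)) : Module.Dual F (nn n F) := μ ∘ₗ tr u v

/-- the two-sided orbit `U μ U` -/
def orb (μ : Module.Dual F (nn n F)) : Set (Module.Dual F (nn n F)) :=
  {ν | ∃ u v : UT n F, ν = act u v μ}

/-- André superclass of `x`: all `g` with `g - 1 ∈ U (x - 1) U` -/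
def cls (x : UT n F) : Set (UT n F) := {g | ∃ u v : UT n F, mat g - 1 = mat u * (mat x - 1) * mat v}

/-- the function `g ↦ ∑_{ν ∈ U μ U} θ(ν(g - 1))` -/
def xi (θ : AddChar F ℂ) (μ : Module.Dual F (nn n F)) (g : UT n F) : ℂ :=
  ∑ᶠ ν ∈ orb μ, θ (ν (lg g))

/-- the set of irreducible characters `χ` of `U_n(F)` which are constituents of `xi θ μ`: the inner
product `|U|⁻¹ ∑ xi(g) χ(g⁻¹)` is nonzero -/
def blk (θ : AddChar F ℂ) (μ : Module.Dual F (nn n F)) : Set (UT n F → ℂ) :=
  {χ | IsIrr χ ∧ ∑ᶠ g : UT n F, xi θ μ g * χ g⁻¹ ≠ 0}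

/-- the superclasses of André's theory -/
def andreK (n : ℕ) (F : Type) [Field F] [Finite F] : Set (Set (UT n F)) := {C | ∃ x, C = cls x}

/-- the partition of the irreducible characters in André's theory -/
def andreX (n : ℕ) {F : Type} [Field F] [Finite F] (θ : AddChar F ℂ) : Set (Set (UT n F → ℂ)) :=
  {B | ∃ μ : Module.Dual F (nn n F), B = blk θ μ}

/-- the functional `y ↦ a * y i j` of the single box `(i, j)` with label `a` -/
def box (i j : Fin n) (a : F) : Module.Dual F (nn n F) where
  toFun y := a * (y : Matrix (Fin n) (Fin n) F) i j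
  map_add' x y := by simp [mul_add]
  map_smul' c x := by simp [mul_left_comm]

/-- A partition `X` of the irreducible characters of `U_n(F)` contains all single-box irreducible
characters: for all `i < j` and `a ≠ 0`, some singleton block `{χ}` of `X` consists of an
irreducible character `χ` that is a positive multiple of `xi θ (box i j a)`. -/
def HasBoxes (θ : AddChar F ℂ) (X : Set (Set (UT n F → ℂ))) : Prop :=
  ∀ i j : Fin n, i < j → ∀ a : F, a ≠ 0 → ∃ χ : UT n F → ℂ, IsIrr χ ∧ {χ} ∈ X ∧
    ∃ c : ℝ, 0 < c ∧ ∀ g, χ g = c * xi θ (box i j a) g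

end Pool.Agent.Helper449_SCT
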