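import Pool.Agent.Helper449_SCT.Defs
import Pool.Agent.H254R3.IN.Idem

/-!
# General facts on supercharacter theories
-/

set_option linter.style.haveILetI false
set_option linter.unusedSectionVars false

open scoped BigOperators Classical
open Pool.Agent.Helper884

noncomputable section

namespace Pool.Agent.Helper449_SCT

variable {G : Type} [Group G] [Fintype G]

lemma irr_iff {χ : G → ℂ} : IsIrr χ ↔ χ ∈ IC.Irr G := by
  rw [IC.mem_Irr]
  exact Iff.rfl

lemma irr_one_ne {χ : G → ℂ} (h : IsIrr χ) : χ 1 ≠ 0 :=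
  H254R3.IN.IsIrr.one_ne (G := G) h

lemma irr_B {χ ψ : G → ℂ} (h1 : IsIrr χ) (h2 : IsIrr ψ) :
    IC.B χ ψ = if χ = ψ then 1 else 0 := IC.B_irr h1 h2

lemma irr_ne_zero {χ : G → ℂ} (h : IsIrr χ) : χ ≠ 0 := by
  rintro rfl
  exact irr_one_ne h rfl

lemma finite_irr : {χ : G → ℂ | IsIrr χ}.Finite := IC.irr_finite (G := G)

lemma sigma_eq {X : Set (G → ℂ)} (hX : ∀ χ ∈ X, IsIrr χ) :
    sigma X = ∑ ψ ∈ (IC.Irr G).filter (· ∈ X), ψ 1 • ψ := by
  funext g
  unfold sigma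
  rw [Finset.sum_apply]
  simp only [Pi.smul_apply, smul_eq_mul]
  apply finsum_mem_eq_sum_of_inter_support_eq
  ext χ
  simp only [Set.mem_inter_iff, Finset.coe_filter, Set.mem_ofPred_eq, ← irr_iff]
  constructor
  · rintro ⟨h1, h2⟩
    exact ⟨⟨hX χ h1, h1⟩, h2⟩
  · rintro ⟨⟨_, h1⟩, h2⟩
    exact ⟨h1, h2⟩

lemma B_sigma {X : Set (G → ℂ)} (hX : ∀ χ ∈ X, IsIrr χ) {χ : G → ℂ} (hχ : IsIrr χ) :
    IC.B (sigma X) χ = if χ ∈ X then χ 1 else 0 := by
  rw [sigma_eq hX, IC.B_sum_left]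
  simp only [IC.B_smul_left]
  rw [Finset.sum_congr rfl (g := fun ψ => ψ 1 * if ψ = χ then 1 else 0) (fun ψ hψ => by
    rw [irr_B (irr_iff.mpr (Finset.mem_filter.mp hψ).1) hχ])]
  simp only [mul_ite, mul_one, mul_zero, Finset.sum_ite_eq', Finset.mem_filter, ← irr_iff, hχ,
    true_and]

lemma sigma_singleton (χ : G → ℂ) (g : G) : sigma {χ} g = χ 1 * χ g := by
  unfold sigma
  rw [finsum_mem_singleton]

/-- linear independence of the `σ_B` -/
lemma sigma_coeff {X : Set (Set (G → ℂ))} (hX : IsPart {χ : G → ℂ | IsIrr χ} X)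
    (s : Finset (Set (G → ℂ))) (hs : ∀ B ∈ s, B ∈ X) (c : Set (G → ℂ) → ℂ) {B : Set (G → ℂ)}
    (hB : B ∈ s) {χ : G → ℂ} (hχ : χ ∈ B) :
    IC.B (∑ D ∈ s, c D • sigma D) χ = c B * χ 1 := by
  have hχi : IsIrr χ := (hX.1 B (hs B hB)).2 hχ
  rw [IC.B_sum_left, Finset.sum_eq_single B]
  · rw [IC.B_smul_left, B_sigma (fun ψ hψ => (hX.1 B (hs B hB)).2 hψ) hχi, if_pos hχ]
  · intro D hD hne
    rw [IC.B_smul_left, B_sigma (fun ψ hψ => (hX.1 D (hs D hD)).2 hψ) hχi, if_neg, mul_zero]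
    intro h
    obtain ⟨E, _, hE⟩ := hX.2 χ hχi
    exact hne ((hE D ⟨hs D hD, h⟩).trans (hE B ⟨hs B hB, hχ⟩).symm)
  · intro h
    exact absurd hB h

lemma partX_finite {X : Set (Set (G → ℂ))} (hX : IsPart {χ : G → ℂ | IsIrr χ} X) : X.Finite := by
  refine (finite_irr (G := G)).finite_subsets.subset fun B hB => ?_
  exact (hX.1 B hB).2

lemma sum_conv {α : Type} {X : Set α} (hXf : X.Finite) [Fintype X] (c : X → ℂ) (s : α → ℂ) :
    ∑ D ∈ hXf.toFinset, (if hD : D ∈ X then c ⟨D, hD⟩ else 0) * s D = ∑ D : X, c D * s D.1 := by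
  rw [Finset.sum_subtype hXf.toFinset (p := fun D => D ∈ X) (by simp)]
  refine Finset.sum_congr rfl fun D _ => ?_
  rw [dif_pos D.2]

/-- the value of a function at a chosen point of a block -/
def pick {K : Set (Set G)} (hK : IsPart Set.univ K) (C : K) : G := (hK.1 C.1 C.2).1.some

lemma pick_mem {K : Set (Set G)} (hK : IsPart Set.univ K) (C : K) : pick hK C ∈ C.1 :=
  (hK.1 C.1 C.2).1.some_mem

/-- in a supercharacter theory the `σ_B` span the functions constant on superclasses -/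
lemma span_sigma {X : Set (Set (G → ℂ))} {K : Set (Set G)} (h : IsSCT X K) (f : G → ℂ)
    (hf : ∀ C ∈ K, ∀ x ∈ C, ∀ y ∈ C, f x = f y) :
    ∃ c : Set (G → ℂ) → ℂ, f = ∑ B ∈ (partX_finite h.partX).toFinset, c B • sigma B := by
  have hXf := partX_finite h.partX
  haveI : Fintype X := hXf.fintype
  have hKf : K.Finite := Set.toFinite K
  haveI : Fintype K := hKf.fintype
  let τ : X → (K → ℂ) := fun B C => sigma B.1 (pick h.partK C)
  have hval : ∀ (B : X) (C : K) (x : G), x ∈ C.1 → sigma B.1 x = τ B C := fun B C x hx =>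
    h.const B.1 B.2 C.1 C.2 x hx _ (pick_mem h.partK C)
  have hblock : ∀ x : G, ∃ C : K, x ∈ C.1 := by
    intro x
    obtain ⟨C, ⟨h1, h2⟩, _⟩ := h.partK.2 x (Set.mem_univ x)
    exact ⟨⟨C, h1⟩, h2⟩
  have hli : LinearIndependent ℂ τ := by
    rw [Fintype.linearIndependent_iff]
    intro c hc B
    have h1 : (∑ D ∈ hXf.toFinset, (fun D : Set (G → ℂ) => if hD : D ∈ X then c ⟨D, hD⟩ else 0) D •
        sigma D) = 0 := by
      funext x
      obtain ⟨C, hC⟩ := hblock x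
      have h2 := congrFun hc C
      rw [Finset.sum_apply] at h2 ⊢
      simp only [Pi.smul_apply, Pi.zero_apply, smul_eq_mul] at h2 ⊢
      rw [sum_conv hXf c (fun D => sigma D x), ← h2]
      refine Finset.sum_congr rfl fun D _ => ?_
      rw [hval D C x hC]
    obtain ⟨χ, hχ⟩ := (h.partX.1 B.1 B.2).1
    have h3 := sigma_coeff h.partX hXf.toFinset (fun D hD => by simpa using hD)
      (fun D : Set (G → ℂ) => if hD : D ∈ X then c ⟨D, hD⟩ else 0) (B := B.1) (by simp) hχ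
    rw [h1] at h3
    rw [dif_pos B.2] at h3
    have h4 : IC.B (0 : G → ℂ) χ = 0 := by simp [IC.B]
    rw [h4] at h3
    rcases mul_eq_zero.mp h3.symm with h5 | h5
    · exact h5
    · exact absurd h5 (irr_one_ne ((h.partX.1 B.1 B.2).2 hχ))
  have hcard : Fintype.card X = Module.finrank ℂ (K → ℂ) := by
    rw [Module.finrank_fintype_fun_eq_card, ← Nat.card_eq_fintype_card,
      ← Nat.card_eq_fintype_card]
    exact h.card
  have hspan := hli.span_eq_top_of_card_eq_finrank' hcard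
  have hmem : (fun C : K => f (pick h.partK C)) ∈ Submodule.span ℂ (Set.range τ) := by
    rw [hspan]
    exact Submodule.mem_top
  obtain ⟨c, hc⟩ := (Submodule.mem_span_range_iff_exists_fun ℂ).mp hmem
  refine ⟨fun D => if hD : D ∈ X then c ⟨D, hD⟩ else 0, ?_⟩
  funext x
  obtain ⟨C, hC⟩ := hblock x
  rw [hf C.1 C.2 x hC _ (pick_mem h.partK C)]
  have h2 := congrFun hc C
  rw [Finset.sum_apply] at h2 ⊢
  simp only [Pi.smul_apply, smul_eq_mul] at h2 ⊢
  rw [← h2, sum_conv hXf c (fun D => sigma D x)]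
  refine Finset.sum_congr rfl fun D _ => ?_
  rw [hval D C x hC]

/-- if the superclasses of one theory refine those of another, so do the character blocks -/
theorem refineX {X X' : Set (Set (G → ℂ))} {K K' : Set (Set G)} (h : IsSCT X K)
    (h' : IsSCT X' K') (hK : ∀ C ∈ K, ∃ C' ∈ K', C ⊆ C') : ∀ B ∈ X, ∃ B' ∈ X', B ⊆ B' := by
  intro B hB
  obtain ⟨χ, hχ⟩ := (h.partX.1 B hB).1
  have hχi : IsIrr χ := (h.partX.1 B hB).2 hχ
  obtain ⟨B', ⟨hB', hχ'⟩, _⟩ := h'.partX.2 χ hχi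
  refine ⟨B', hB', fun ψ hψ => ?_⟩
  have hψi : IsIrr ψ := (h.partX.1 B hB).2 hψ
  obtain ⟨c, hc⟩ := span_sigma h (sigma B') (by
    intro C hC x hx y hy
    obtain ⟨C', hC', hsub⟩ := hK C hC
    exact h'.const B' hB' C' hC' x (hsub hx) y (hsub hy))
  have h1 := sigma_coeff h.partX (partX_finite h.partX).toFinset (fun D hD => by simpa using hD) c
    (B := B) (by simpa using hB) hχ
  have h2 := sigma_coeff h.partX (partX_finite h.partX).toFinset (fun D hD => by simpa using hD) c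
    (B := B) (by simpa using hB) hψ
  rw [← hc, B_sigma (fun φ hφ => (h'.partX.1 B' hB').2 hφ) hχi, if_pos hχ'] at h1
  rw [← hc, B_sigma (fun φ hφ => (h'.partX.1 B' hB').2 hφ) hψi] at h2
  have hc1 : c B = 1 := by
    have h3 : (c B - 1) * χ 1 = 0 := by rw [sub_mul, one_mul, ← h1, sub_self]
    rcases mul_eq_zero.mp h3 with h4 | h4
    · exact sub_eq_zero.mp h4
    · exact absurd h4 (irr_one_ne hχi)
  by_contra hn
  rw [if_neg hn, hc1, one_mul] at h2
  exact irr_one_ne hψi h2.symm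

end Pool.Agent.Helper449_SCT
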