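import Pool.Agent.Helper449_SCT.Box

/-!
# Normal form of strictly upper triangular matrices under `U × U`
-/

set_option linter.style.haveILetI false
set_option linter.unusedSectionVars false

open scoped BigOperators Classical

noncomputable section

namespace Pool.Agent.Helper449_SCT

variable {n : ℕ} {F : Type} [Field F] [Finite F]

/-- each nonzero entry in a column `< m` is alone in its row and column -/
def QM (m : ℕ) (z : nn n F) : Prop :=
  ∀ l : Fin n, (l : ℕ) < m → ∀ i : Fin n, (z : Matrix (Fin n) (Fin n) F) i l ≠ 0 →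
    (∀ l', l' ≠ l → (z : Matrix (Fin n) (Fin n) F) i l' = 0) ∧
    (∀ k, k ≠ i → (z : Matrix (Fin n) (Fin n) F) k l = 0)

/-- the column of multipliers -/
def colY (z : nn n F) (i c : Fin n) : nn n F :=
  ⟨fun p q => if q = i ∧ p < i then -((z : Matrix (Fin n) (Fin n) F) p c /
      (z : Matrix (Fin n) (Fin n) F) i c) else 0, fun p q hqp => by
    change (if q = i ∧ p < i then -((z : Matrix (Fin n) (Fin n) F) p c /
      (z : Matrix (Fin n) (Fin n) F) i c) else 0) = 0
    rw [if_neg]
    rintro ⟨rfl, h⟩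
    exact absurd h (not_lt.mpr hqp)⟩

lemma colY_apply (z : nn n F) (i c p q : Fin n) :
    (colY z i c : Matrix (Fin n) (Fin n) F) p q = if q = i ∧ p < i then
      -((z : Matrix (Fin n) (Fin n) F) p c / (z : Matrix (Fin n) (Fin n) F) i c) else 0 := rfl

/-- the row of multipliers -/
def rowZ (z : nn n F) (i c : Fin n) : nn n F :=
  ⟨fun p q => if p = c ∧ c < q then -((z : Matrix (Fin n) (Fin n) F) i q /
      (z : Matrix (Fin n) (Fin n) F) i c) else 0, fun p q hqp => by
    change (if p = c ∧ c < q then -((z : Matrix (Fin n) (Fin n) F) i q /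
      (z : Matrix (Fin n) (Fin n) F) i c) else 0) = 0
    rw [if_neg]
    rintro ⟨rfl, h⟩
    exact absurd h (not_lt.mpr hqp)⟩

lemma rowZ_apply (z : nn n F) (i c p q : Fin n) :
    (rowZ z i c : Matrix (Fin n) (Fin n) F) p q = if p = c ∧ c < q then
      -((z : Matrix (Fin n) (Fin n) F) i q / (z : Matrix (Fin n) (Fin n) F) i c) else 0 := rfl

lemma clear_entry (z : nn n F) (i c : Fin n) (hic : (z : Matrix (Fin n) (Fin n) F) i c ≠ 0)
    (hmax : ∀ k, i < k → (z : Matrix (Fin n) (Fin n) F) k c = 0) (p q : Fin n) :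
    (tr (ex (colY z i c)) (ex (rowZ z i c)) z : Matrix (Fin n) (Fin n) F) p q =
      (z : Matrix (Fin n) (Fin n) F) p q -
      (if p < i then (z : Matrix (Fin n) (Fin n) F) p c / (z : Matrix (Fin n) (Fin n) F) i c *
        (z : Matrix (Fin n) (Fin n) F) i q else 0) -
      (if p = i ∧ c < q then (z : Matrix (Fin n) (Fin n) F) i q else 0) := by
  rw [coe_tr, mat_ex, mat_ex]
  set w : Matrix (Fin n) (Fin n) F := (1 + (colY z i c : Matrix (Fin n) (Fin n) F)) * z with hw
  have h1 : ∀ p q, w p q = (z : Matrix (Fin n) (Fin n) F) p q -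
      (if p < i then (z : Matrix (Fin n) (Fin n) F) p c / (z : Matrix (Fin n) (Fin n) F) i c *
        (z : Matrix (Fin n) (Fin n) F) i q else 0) := by
    intro p q
    rw [hw, add_mul, one_mul, Matrix.add_apply, sub_eq_add_neg]
    congr 1
    rw [Matrix.mul_apply, Finset.sum_eq_single i]
    · rw [colY_apply]
      by_cases hp : p < i
      · rw [if_pos ⟨rfl, hp⟩, if_pos hp, neg_mul]
      · rw [if_neg (fun h => hp h.2), if_neg hp, zero_mul, neg_zero]
    · intro k _ hk
      rw [colY_apply, if_neg (fun h => hk h.1), zero_mul]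
    · intro h
      exact absurd (Finset.mem_univ _) h
  have h2 : ∀ p, w p c = if p = i then (z : Matrix (Fin n) (Fin n) F) i c else 0 := by
    intro p
    rw [h1]
    rcases lt_trichotomy p i with hp | rfl | hp
    · rw [if_pos hp, if_neg hp.ne, div_mul_cancel₀ _ hic, sub_self]
    · rw [if_neg (lt_irrefl _), if_pos rfl, sub_zero]
    · rw [if_neg hp.le.not_gt, if_neg hp.ne', hmax p hp, sub_zero]
  rw [mul_add, mul_one, Matrix.add_apply, ← h1, sub_eq_add_neg]
  congr 1
  rw [Matrix.mul_apply, Finset.sum_eq_single c]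
  · rw [h2, rowZ_apply]
    by_cases hp : p = i
    · by_cases hq : c < q
      · rw [if_pos hp, if_pos ⟨rfl, hq⟩, if_pos ⟨hp, hq⟩, mul_neg, mul_div_cancel₀ _ hic]
      · have e1 : ¬(c = c ∧ c < q) := fun h => hq h.2
        have e2 : ¬(p = i ∧ c < q) := fun h => hq h.2
        rw [if_neg e1, if_neg e2, mul_zero, neg_zero]
    · have e2 : ¬(p = i ∧ c < q) := fun h => hp h.1
      rw [if_neg hp, if_neg e2, zero_mul, neg_zero]
  · intro k _ hk
    rw [rowZ_apply, if_neg (fun h => hk h.1), mul_zero]
  · intro h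
    exact absurd (Finset.mem_univ _) h

lemma nf_step (m : ℕ) (hm : m < n) (z : nn n F) (hz : QM m z) :
    ∃ u v : UT n F, QM (m + 1) (tr u v z) := by
  set c : Fin n := ⟨m, hm⟩ with hc
  by_cases h0 : ∀ i, (z : Matrix (Fin n) (Fin n) F) i c = 0
  · refine ⟨1, 1, ?_⟩
    rw [tr_one]
    intro l hl i hi
    rcases Nat.lt_succ_iff_lt_or_eq.mp hl with h | h
    · exact hz l h i hi
    · have : l = c := Fin.ext h
      rw [this] at hi
      exact absurd (h0 i) hi
  · push Not at h0
    obtain ⟨i, hi, hmax⟩ : ∃ i, (z : Matrix (Fin n) (Fin n) F) i c ≠ 0 ∧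
        ∀ k, i < k → (z : Matrix (Fin n) (Fin n) F) k c = 0 := by
      have hne : (Finset.univ.filter fun i => (z : Matrix (Fin n) (Fin n) F) i c ≠ 0).Nonempty := by
        obtain ⟨i, hi⟩ := h0
        exact ⟨i, by simp [hi]⟩
      refine ⟨_, (Finset.mem_filter.mp (Finset.max'_mem _ hne)).2, fun k hk => ?_⟩
      by_contra hcon
      exact absurd (Finset.le_max' _ k (by simp [hcon])) (not_le.mpr hk)
    have hrow : ∀ q, q < c → (z : Matrix (Fin n) (Fin n) F) i q = 0 := by
      intro q hq
      by_contra hcon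
      exact hi ((hz q hq i hcon).1 c hq.ne')
    refine ⟨ex (colY z i c), ex (rowZ z i c), ?_⟩
    have key := clear_entry z i c hi hmax
    set w : nn n F := tr (ex (colY z i c)) (ex (rowZ z i c)) z with hw
    have hlow : ∀ p q, q < c → (w : Matrix (Fin n) (Fin n) F) p q =
        (z : Matrix (Fin n) (Fin n) F) p q := by
      intro p q hq
      have e2 : ¬(p = i ∧ c < q) := fun h => hq.not_gt h.2
      rw [key, hrow q hq, mul_zero, ite_self, sub_zero, if_neg e2, sub_zero]
    have hcol : ∀ p, (w : Matrix (Fin n) (Fin n) F) p c =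
        if p = i then (z : Matrix (Fin n) (Fin n) F) i c else 0 := by
      intro p
      have e2 : ¬(p = i ∧ c < c) := fun h => lt_irrefl _ h.2
      rw [key, if_neg e2, sub_zero]
      rcases lt_trichotomy p i with hp | rfl | hp
      · rw [if_pos hp, if_neg hp.ne, div_mul_cancel₀ _ hi, sub_self]
      · rw [if_neg (lt_irrefl _), if_pos rfl, sub_zero]
      · rw [if_neg hp.le.not_gt, if_neg hp.ne', hmax p hp, sub_zero]
    intro l hl p hp
    rcases Nat.lt_succ_iff_lt_or_eq.mp hl with h | h
    · have hlc : l < c := h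
      rw [hlow p l hlc] at hp
      obtain ⟨hz1, hz2⟩ := hz l h p hp
      have hpi : p ≠ i := by
        rintro rfl
        exact hp (hrow l hlc)
      constructor
      · intro q hq
        have e2 : ¬(p = i ∧ c < q) := fun h => hpi h.1
        rw [key, hz1 q hq, hz1 c hlc.ne', zero_div, zero_mul, ite_self, if_neg e2,
          sub_zero, sub_zero]
      · intro k hk
        rw [hlow k l hlc]
        exact hz2 k hk
    · have hlc : l = c := Fin.ext h
      rw [hlc] at hp ⊢
      rw [hcol] at hp
      have hpi : p = i := by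
        by_contra hcon
        rw [if_neg hcon] at hp
        exact hp rfl
      subst hpi
      constructor
      · intro q hq
        rcases lt_or_gt_of_ne hq with hq | hq
        · rw [hlow p q hq, hrow q hq]
        · rw [key, if_neg (lt_irrefl _), if_pos ⟨rfl, hq⟩, sub_zero, sub_self]
      · intro k hk
        rw [hcol, if_neg hk]

lemma nf_aux (m : ℕ) (hm : m ≤ n) (y : nn n F) : ∃ u v : UT n F, QM m (tr u v y) := by
  induction m with
  | zero => exact ⟨1, 1, fun l hl => absurd hl (Nat.not_lt_zero _)⟩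
  | succ m ih =>
    obtain ⟨u, v, h⟩ := ih (Nat.le_of_succ_le hm)
    obtain ⟨u', v', h'⟩ := nf_step m hm _ h
    rw [tr_tr] at h'
    exact ⟨_, _, h'⟩

/-- every strictly upper triangular matrix is equivalent to one with at most one nonzero entry in
each row and column -/
theorem nf (y : nn n F) : ∃ u v : UT n F,
    ∀ i j, (tr u v y : Matrix (Fin n) (Fin n) F) i j ≠ 0 →
      (∀ l, l ≠ j → (tr u v y : Matrix (Fin n) (Fin n) F) i l = 0) ∧
      (∀ k, k ≠ i → (tr u v y : Matrix (Fin n) (Fin n) F) k j = 0) := by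
  obtain ⟨u, v, h⟩ := nf_aux n le_rfl y
  exact ⟨u, v, fun i j hij => h j j.2 i hij⟩

end Pool.Agent.Helper449_SCT
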