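import Pool.Agent.Helper449_SCT.NF

/-!
# Single-box characters separate André superclasses
-/

set_option linter.style.haveILetI false
set_option linter.unusedSectionVars false

open scoped BigOperators Classical
open Pool.Agent.Helper884

noncomputable section

namespace Pool.Agent.Helper449_SCT

variable {n : ℕ} {F : Type} [Field F] [Finite F]

/-- the double sum `∑_{u, v} θ(a (u y v)_{ij})` -/
def Sm (θ : AddChar F ℂ) (i j : Fin n) (a : F) (y : nn n F) : ℂ :=
  ∑ u : UT n F, ∑ v : UT n F, θ (a * (tr u v y : Matrix (Fin n) (Fin n) F) i j)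

lemma Sm_eq (θ : AddChar F ℂ) (i j : Fin n) (a : F) :
    ∃ m : ℕ, 0 < m ∧ ∀ y : nn n F, Sm θ i j a y = m * eta θ (box i j a) y := by
  obtain ⟨m, hm, h⟩ := avg2 (box i j a : Module.Dual F (nn n F))
  refine ⟨m, hm, fun y => ?_⟩
  rw [eta, ← h (fun ν => θ (ν y)), Fintype.sum_prod_type]
  rfl

lemma Sm_tr (θ : AddChar F ℂ) (i j : Fin n) (a : F) (u v : UT n F) (y : nn n F) :
    Sm θ i j a (tr u v y) = Sm θ i j a y := by
  obtain ⟨m, _, h⟩ := Sm_eq θ i j a
  rw [h, h, eta_tr]

/-- the elementary matrix `t E_ij` -/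
def el (i j : Fin n) (hij : i < j) (t : F) : nn n F :=
  ⟨fun p q => if p = i ∧ q = j then t else 0, fun p q hqp => by
    change (if p = i ∧ q = j then t else 0) = 0
    rw [if_neg]
    rintro ⟨rfl, rfl⟩
    exact absurd hij (not_lt.mpr hqp)⟩

lemma el_apply (i j : Fin n) (hij : i < j) (t : F) (p q : Fin n) :
    (el i j hij t : Matrix (Fin n) (Fin n) F) p q = if p = i ∧ q = j then t else 0 := rfl

lemma el_mul (i j : Fin n) (hij : i < j) (t : F) (y : Matrix (Fin n) (Fin n) F) (p q : Fin n) :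
    ((el i j hij t : Matrix (Fin n) (Fin n) F) * y) p q = if p = i then t * y j q else 0 := by
  rw [Matrix.mul_apply, Finset.sum_eq_single j]
  · rw [el_apply]
    by_cases hp : p = i
    · rw [if_pos hp, if_pos ⟨hp, rfl⟩]
    · have e1 : ¬(p = i ∧ j = j) := fun h => hp h.1
      rw [if_neg hp, if_neg e1, zero_mul]
  · intro k _ hk
    have e1 : ¬(p = i ∧ k = j) := fun h => hk h.2
    rw [el_apply, if_neg e1, zero_mul]
  · intro h
    exact absurd (Finset.mem_univ _) h

lemma mul_el (i j : Fin n) (hij : i < j) (t : F) (y : Matrix (Fin n) (Fin n) F) (p q : Fin n) :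
    (y * (el i j hij t : Matrix (Fin n) (Fin n) F)) p q = if q = j then y p i * t else 0 := by
  rw [Matrix.mul_apply, Finset.sum_eq_single i]
  · rw [el_apply]
    by_cases hq : q = j
    · rw [if_pos hq, if_pos ⟨rfl, hq⟩]
    · have e1 : ¬(i = i ∧ q = j) := fun h => hq h.2
      rw [if_neg hq, if_neg e1, mul_zero]
  · intro k _ hk
    have e1 : ¬(k = i ∧ q = j) := fun h => hk h.1
    rw [el_apply, if_neg e1, mul_zero]
  · intro h
    exact absurd (Finset.mem_univ _) h

/-- adding `t E_ij` multiplies the sum by `θ(a t)` -/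
lemma Sm_add_el (θ : AddChar F ℂ) (i j : Fin n) (hij : i < j) (a t : F) (y : nn n F) :
    Sm θ i j a (y + el i j hij t) = θ (a * t) * Sm θ i j a y := by
  unfold Sm
  rw [Finset.mul_sum]
  refine Finset.sum_congr rfl fun u _ => ?_
  rw [Finset.mul_sum]
  refine Finset.sum_congr rfl fun v _ => ?_
  rw [← AddChar.map_add_eq_mul]
  congr 1
  rw [map_add, Submodule.coe_add, Matrix.add_apply, coe_tr u v (el i j hij t), mul_assoc]
  have h1 : (mat u * ((el i j hij t : Matrix (Fin n) (Fin n) F) * mat v)) i j = t := by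
    rw [Matrix.mul_apply, Finset.sum_eq_single i]
    · rw [el_mul, if_pos rfl, mat_diag, mat_diag, one_mul, mul_one]
    · intro k _ hk
      rw [el_mul, if_neg hk, mul_zero]
    · intro h
      exact absurd (Finset.mem_univ _) h
  rw [h1]
  ring

lemma theta_exists (θ : AddChar F ℂ) (hθ : θ ≠ 1) {a : F} (ha : a ≠ 0) : ∃ s : F, θ (a * s) ≠ 1 := by
  by_contra hcon
  push Not at hcon
  apply hθ
  ext t
  have := hcon (a⁻¹ * t)
  rw [mul_inv_cancel_left₀ ha] at this
  rw [this]
  rfl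

lemma Sm_zero_of (θ : AddChar F ℂ) (hθ : θ ≠ 1) (i j : Fin n) (hij : i < j) {a x : F} (ha : a ≠ 0)
    (hx : x ≠ 0) (y : nn n F)
    (h : ∀ s : F, Sm θ i j a (y + el i j hij (s * x)) = Sm θ i j a y) : Sm θ i j a y = 0 := by
  obtain ⟨s, hs⟩ := theta_exists θ hθ (mul_ne_zero ha hx)
  have h1 := h s
  rw [Sm_add_el] at h1
  have h2 : (θ (a * x * s) - 1) * Sm θ i j a y = 0 := by
    rw [sub_mul, one_mul, sub_eq_zero, ← h1]
    congr 2
    ring
  rcases mul_eq_zero.mp h2 with h3 | h3
  · exact absurd (sub_eq_zero.mp h3) hs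
  · exact h3

/-- a nonzero entry to the left, alone in its column, kills the sum -/
lemma Sm_zero_left (θ : AddChar F ℂ) (hθ : θ ≠ 1) (i j l : Fin n) (hij : i < j) (hlj : l < j)
    {a : F} (ha : a ≠ 0) (y : nn n F) (hy : (y : Matrix (Fin n) (Fin n) F) i l ≠ 0)
    (hcol : ∀ k, k ≠ i → (y : Matrix (Fin n) (Fin n) F) k l = 0) : Sm θ i j a y = 0 := by
  refine Sm_zero_of θ hθ i j hij ha hy y fun s => ?_
  rw [← Sm_tr θ i j a 1 (ex (el l j hlj s)) y]
  congr 1
  apply Subtype.ext
  rw [Submodule.coe_add, coe_tr, mat_one, one_mul, mat_ex, mul_add, mul_one]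
  congr 1
  ext p q
  rw [el_apply, mul_el]
  by_cases hp : p = i
  · by_cases hq : q = j
    · rw [if_pos ⟨hp, hq⟩, if_pos hq, hp, mul_comm]
    · have e1 : ¬(p = i ∧ q = j) := fun h => hq h.2
      rw [if_neg e1, if_neg hq]
  · have e1 : ¬(p = i ∧ q = j) := fun h => hp h.1
    rw [if_neg e1, hcol p hp, zero_mul, ite_self]

/-- a nonzero entry below, alone in its row, kills the sum -/
lemma Sm_zero_below (θ : AddChar F ℂ) (hθ : θ ≠ 1) (i j k : Fin n) (hij : i < j) (hik : i < k)
    {a : F} (ha : a ≠ 0) (y : nn n F) (hy : (y : Matrix (Fin n) (Fin n) F) k j ≠ 0)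
    (hrow : ∀ l, l ≠ j → (y : Matrix (Fin n) (Fin n) F) k l = 0) : Sm θ i j a y = 0 := by
  refine Sm_zero_of θ hθ i j hij ha hy y fun s => ?_
  rw [← Sm_tr θ i j a (ex (el i k hik s)) 1 y]
  congr 1
  apply Subtype.ext
  rw [Submodule.coe_add, coe_tr, mat_one, mul_one, mat_ex, add_mul, one_mul]
  congr 1
  ext p q
  rw [el_apply, el_mul]
  by_cases hq : q = j
  · by_cases hp : p = i
    · rw [if_pos ⟨hp, hq⟩, if_pos hp, hq]
    · have e1 : ¬(p = i ∧ q = j) := fun h => hp h.1
      rw [if_neg e1, if_neg hp]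
  · have e1 : ¬(p = i ∧ q = j) := fun h => hq h.2
    rw [if_neg e1, hrow q hq, mul_zero, ite_self]

/-- if nothing is to the left of or below the position, the sum is positive -/
lemma Sm_pos (θ : AddChar F ℂ) (hθ : θ ≠ 1) (i j : Fin n) {a : F} (ha : a ≠ 0)
    (y : nn n F) (hrow : ∀ l, l ≤ j → (y : Matrix (Fin n) (Fin n) F) i l = 0)
    (hcol : ∀ k, i ≤ k → (y : Matrix (Fin n) (Fin n) F) k j = 0) :
    ∃ N : ℕ, 0 < N ∧ Sm θ i j a y = N := by
  set P : UT n F → Prop := fun u =>
    ∀ l, l < j → (mat u * (y : Matrix (Fin n) (Fin n) F)) i l = 0 with hP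
  have hj : ∀ u : UT n F, (mat u * (y : Matrix (Fin n) (Fin n) F)) i j = 0 := by
    intro u
    rw [Matrix.mul_apply]
    refine Finset.sum_eq_zero fun k _ => ?_
    rcases lt_or_ge k i with hk | hk
    · rw [mat_lower u hk, zero_mul]
    · rw [hcol k hk, mul_zero]
  have h1 : ∀ u : UT n F, ∑ v : UT n F, θ (a * (tr u v y : Matrix (Fin n) (Fin n) F) i j) =
      if P u then (Fintype.card (UT n F) : ℂ) else 0 := by
    intro u
    by_cases hu : P u
    · rw [if_pos hu]
      have h2 : ∀ v : UT n F, θ (a * (tr u v y : Matrix (Fin n) (Fin n) F) i j) = 1 := by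
        intro v
        have h3 : (tr u v y : Matrix (Fin n) (Fin n) F) i j = 0 := by
          rw [coe_tr, Matrix.mul_apply]
          refine Finset.sum_eq_zero fun l _ => ?_
          rcases lt_trichotomy l j with hl | rfl | hl
          · rw [hu l hl, zero_mul]
          · rw [hj, zero_mul]
          · rw [mat_lower v hl, mul_zero]
        rw [h3, mul_zero, AddChar.map_zero_eq_one]
      simp only [h2]
      simp
    · rw [if_neg hu]
      simp only [hP] at hu
      push Not at hu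
      obtain ⟨l, hlj, hl⟩ := hu
      obtain ⟨s, hs⟩ := theta_exists θ hθ (mul_ne_zero ha hl)
      set S := ∑ v : UT n F, θ (a * (tr u v y : Matrix (Fin n) (Fin n) F) i j) with hS
      have h2 : S = θ (a * (mat u * (y : Matrix (Fin n) (Fin n) F)) i l * s) * S := by
        conv_rhs => rw [hS, Finset.mul_sum]
        rw [hS]
        refine Fintype.sum_equiv (Equiv.mulLeft (ex (el l j hlj (-s)))) _ _ fun v => ?_
        rw [Equiv.coe_mulLeft, ← AddChar.map_add_eq_mul]
        congr 1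
        rw [coe_tr, coe_tr, mat_mul, mat_ex, add_mul, one_mul, mul_add, Matrix.add_apply]
        have h4 : (mat u * (y : Matrix (Fin n) (Fin n) F) *
            ((el l j hlj (-s) : Matrix (Fin n) (Fin n) F) * mat v)) i j =
            -((mat u * (y : Matrix (Fin n) (Fin n) F)) i l * s) := by
          rw [Matrix.mul_apply, Finset.sum_eq_single l]
          · rw [el_mul, if_pos rfl, mat_diag, mul_one, mul_neg]
          · intro k _ hk
            rw [el_mul, if_neg hk, mul_zero]
          · intro h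
            exact absurd (Finset.mem_univ _) h
        rw [h4]
        ring
      have h5 : (θ (a * (mat u * (y : Matrix (Fin n) (Fin n) F)) i l * s) - 1) * S = 0 := by
        rw [sub_mul, one_mul, ← h2, sub_self]
      rcases mul_eq_zero.mp h5 with h6 | h6
      · exact absurd (sub_eq_zero.mp h6) hs
      · exact h6
  refine ⟨(Finset.univ.filter P).card * Fintype.card (UT n F), ?_, ?_⟩
  · refine Nat.mul_pos (Finset.card_pos.mpr ⟨1, ?_⟩) Fintype.card_pos
    rw [Finset.mem_filter]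
    refine ⟨Finset.mem_univ _, fun l hl => ?_⟩
    rw [mat_one, one_mul]
    exact hrow l hl.le
  · unfold Sm
    simp only [h1]
    rw [← Finset.sum_filter, Finset.sum_const, nsmul_eq_mul]
    push_cast
    ring

/-- at most one nonzero entry in each row and column -/
def Mono (y : nn n F) : Prop :=
  ∀ i j, (y : Matrix (Fin n) (Fin n) F) i j ≠ 0 →
      (∀ l, l ≠ j → (y : Matrix (Fin n) (Fin n) F) i l = 0) ∧
      (∀ k, k ≠ i → (y : Matrix (Fin n) (Fin n) F) k j = 0)

/-- a clear position -/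
lemma Sm_clear (θ : AddChar F ℂ) (hθ : θ ≠ 1) (i j : Fin n) (hij : i < j) {a : F} (ha : a ≠ 0)
    (y : nn n F) (hrow : ∀ l, l < j → (y : Matrix (Fin n) (Fin n) F) i l = 0)
    (hcol : ∀ k, i < k → (y : Matrix (Fin n) (Fin n) F) k j = 0) :
    ∃ N : ℕ, 0 < N ∧ Sm θ i j a y = θ (a * (y : Matrix (Fin n) (Fin n) F) i j) * N := by
  set t := (y : Matrix (Fin n) (Fin n) F) i j with ht
  have hy : y = (y - el i j hij t) + el i j hij t := by rw [sub_add_cancel]
  obtain ⟨N, hN, h⟩ := Sm_pos θ hθ i j ha (y - el i j hij t) (by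
    intro l hl
    rw [Submodule.coe_sub, Matrix.sub_apply, el_apply]
    rcases hl.lt_or_eq with h | h
    · have e1 : ¬(i = i ∧ l = j) := fun h' => h.ne h'.2
      rw [if_neg e1, hrow l h, sub_zero]
    · rw [if_pos ⟨rfl, h⟩, h, ← ht, sub_self]) (by
    intro k hk
    rw [Submodule.coe_sub, Matrix.sub_apply, el_apply]
    rcases hk.lt_or_eq with h | h
    · have e1 : ¬(k = i ∧ j = j) := fun h' => h.ne' h'.1
      rw [if_neg e1, hcol k h, sub_zero]
    · rw [if_pos ⟨h.symm, rfl⟩, ← h, ← ht, sub_self])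
  refine ⟨N, hN, ?_⟩
  conv_lhs => rw [hy]
  rw [Sm_add_el, h]

lemma theta_norm (θ : AddChar F ℂ) (t : F) : ‖θ t‖ = 1 := AddChar.norm_apply θ t

lemma mono_half (θ : AddChar F ℂ) (hθ : θ ≠ 1) (D D' : nn n F) (hD : Mono D) (hD' : Mono D')
    (h : ∀ i j : Fin n, i < j → ∀ a : F, a ≠ 0 → Sm θ i j a D = Sm θ i j a D') (i j : Fin n)
    (hij : (D : Matrix (Fin n) (Fin n) F) i j ≠ 0) :
    (D : Matrix (Fin n) (Fin n) F) i j = (D' : Matrix (Fin n) (Fin n) F) i j := by
  have hlt : i < j := by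
    by_contra hcon
    exact hij (D.2 i j (not_lt.mp hcon))
  obtain ⟨h1, h2⟩ := hD i j hij
  have key : ∀ a : F, a ≠ 0 → θ (a * (D : Matrix (Fin n) (Fin n) F) i j) =
      θ (a * (D' : Matrix (Fin n) (Fin n) F) i j) := by
    intro a ha
    obtain ⟨N, hN, hS⟩ := Sm_clear θ hθ i j hlt ha D (fun l hl => h1 l hl.ne)
      (fun k hk => h2 k hk.ne')
    have hne : Sm θ i j a D' ≠ 0 := by
      rw [← h i j hlt a ha, hS]
      refine mul_ne_zero ?_ (by exact_mod_cast hN.ne')
      intro h0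
      have := theta_norm θ (a * (D : Matrix (Fin n) (Fin n) F) i j)
      rw [h0, norm_zero] at this
      exact zero_ne_one this
    obtain ⟨N', hN', hS'⟩ := Sm_clear θ hθ i j hlt ha D' (by
      intro l hl
      by_contra hcon
      exact hne (Sm_zero_left θ hθ i j l hlt hl ha D' hcon (hD' i l hcon).2)) (by
      intro k hk
      by_contra hcon
      exact hne (Sm_zero_below θ hθ i j k hlt hk ha D' hcon (hD' k j hcon).1))
    have h3 : θ (a * (D : Matrix (Fin n) (Fin n) F) i j) * N =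
        θ (a * (D' : Matrix (Fin n) (Fin n) F) i j) * N' := by
      rw [← hS, ← hS', h i j hlt a ha]
    have h4 : (N : ℂ) = N' := by
      have h5 := congrArg (fun z : ℂ => ‖z‖) h3
      simp only [norm_mul, theta_norm, one_mul, Complex.norm_natCast] at h5
      exact_mod_cast h5
    rw [← h4] at h3
    exact mul_right_cancel₀ (by exact_mod_cast hN.ne') h3
  by_contra hne
  obtain ⟨s, hs⟩ := theta_exists θ hθ (sub_ne_zero.mpr hne)
  apply hs
  by_cases hs0 : s = 0
  · rw [hs0, mul_zero, AddChar.map_zero_eq_one]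
  · have h5 := key s hs0
    rw [sub_mul, AddChar.map_sub_eq_div, mul_comm _ s, mul_comm _ s, h5, div_self]
    intro h0
    have := theta_norm θ (s * (D' : Matrix (Fin n) (Fin n) F) i j)
    rw [h0, norm_zero] at this
    exact zero_ne_one this

lemma mono_eq (θ : AddChar F ℂ) (hθ : θ ≠ 1) (D D' : nn n F) (hD : Mono D) (hD' : Mono D')
    (h : ∀ i j : Fin n, i < j → ∀ a : F, a ≠ 0 → Sm θ i j a D = Sm θ i j a D') : D = D' := by
  apply Subtype.ext
  ext i j
  by_cases h1 : (D : Matrix (Fin n) (Fin n) F) i j ≠ 0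
  · exact mono_half θ hθ D D' hD hD' h i j h1
  · by_cases h2 : (D' : Matrix (Fin n) (Fin n) F) i j ≠ 0
    · exact (mono_half θ hθ D' D hD' hD (fun i j hij a ha => (h i j hij a ha).symm) i j h2).symm
    · push Not at h1 h2
      rw [h1, h2]

/-- the single-box characters separate the superclasses -/
theorem separate (θ : AddChar F ℂ) (hθ : θ ≠ 1) {x g : UT n F}
    (h : ∀ i j : Fin n, i < j → ∀ a : F, a ≠ 0 → xi θ (box i j a) g = xi θ (box i j a) x) :
    g ∈ cls x := by
  obtain ⟨u, v, huv⟩ := nf (lg g)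
  obtain ⟨u', v', huv'⟩ := nf (lg x)
  have h1 := mono_eq θ hθ (tr u v (lg g)) (tr u' v' (lg x)) huv huv' (by
    intro i j hij a ha
    rw [Sm_tr, Sm_tr]
    obtain ⟨m, _, hm⟩ := Sm_eq θ i j a
    rw [hm, hm, ← xi_eq, ← xi_eq, h i j hij a ha])
  rw [mem_cls]
  refine ⟨u⁻¹ * u', v' * v⁻¹, ?_⟩
  rw [← tr_tr, ← h1, tr_tr, inv_mul_cancel, mul_inv_cancel, tr_one]

/-- every supercharacter theory containing the single-box irreducible characters refines
André's theory -/
theorem refines (θ : AddChar F ℂ) (hθ : θ ≠ 1) {X : Set (Set (UT n F → ℂ))}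
    {K : Set (Set (UT n F))} (hXK : IsSCT X K) (hB : HasBoxes θ X) :
    ∀ C ∈ K, ∃ C' ∈ andreK n F, C ⊆ C' := by
  intro C hC
  obtain ⟨x, hx⟩ := (hXK.partK.1 C hC).1
  refine ⟨cls x, ⟨x, rfl⟩, fun g hg => ?_⟩
  refine separate θ hθ fun i j hij a ha => ?_
  obtain ⟨χ, hχ, hmem, c, hc, hcχ⟩ := hB i j hij a ha
  have h1 := hXK.const _ hmem C hC g hg x hx
  rw [sigma_singleton, sigma_singleton] at h1
  have h2 := mul_left_cancel₀ (irr_one_ne hχ) h1
  rw [hcχ, hcχ] at h2
  exact mul_left_cancel₀ (by exact_mod_cast hc.ne') h2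

end Pool.Agent.Helper449_SCT
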